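import Pool.Agent.Helper26.C75.IT
import Pool.Agent.Helper51.FR.PtK

/-!
MP_c75db0, Plan W, row M7 (A): the dispatcher for the table `RTK` (chord of `w - √w` for the stars).
-/

set_option autoImplicit false
noncomputable section
namespace Pool.Agent.Helper26.IT

open Matrix
open Pool.Agent.Helper90.C75 (Vt)
open Pool.Agent.Helper90.KMT
open Pool.Agent.Helper90.KMO (UU UU_pos UUc_ne cz zv zv_p)
open Pool.Agent.Helper86.C75 (Z)
open Pool.Agent.Helper86.CX (Cx andB)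
open Pool.Agent.Helper86.CT (N3 Alg Mo KM mk cst addM subM mulM conjM invM invOK A3 A4)
open Pool.Agent.Helper17.K9 (V9)
open Pool.Agent.Helper62.TVM
open Pool.Agent.Helper51.FR (LE LM LOK chM csM cst_nat RTK)
open Pool.Agent.Helper26.XM
open Pool.Agent.Helper26.XH
open Pool.Agent.Helper6.MONO (V3)
open Pool.Agent.Helper6.MONO.W2 (Mt rfJ nW phi Prt RPar sat sati Pd cs sc sc_cs brJ Sy)
open Pool.Agent.Helper21.SW

variable {κ γ : Type}

/-- the model of `ch` in the table `RTK` -/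
def chK (c : Nat) (E : LE) (W : Mo T3) : Mo T3 :=
  cond (Nat.beq (Nat.div c (nat_lit 2)) (nat_lit 1)) (csM A3 E.e.al E.e.be W)
    (chM A3 E.e.al E.e.be W)

theorem RL_K (tb : ℕ → LE) (w : Sy → ℝ) (bc : ℕ → ℕ → Prop) (c : ℕ) :
    RL (RTK tb w bc) (cs c) (tb c) := by
  have e : Pool.Agent.Helper6.MONO.W2.TY.sc (cs c) = c := Pool.Agent.Helper6.MONO.W2.TY.sc_cs c
  refine ⟨fun i => ?_, ?_, rfl⟩
  · show (((tb (Pool.Agent.Helper6.MONO.W2.TY.sc (cs c))).tau.getD i 0 : ℕ) : ℝ) /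
      Pool.Agent.Helper90.KMO.UU = _
    rw [e]
  · show ((tb (Pool.Agent.Helper6.MONO.W2.TY.sc (cs c))).e.H : ℝ) /
      Pool.Agent.Helper90.KMO.UU = _
    rw [e]

theorem ch_K {t : ℕ → ℝ} (hP : PT 3 t) {tb : ℕ → LE} {w : Sy → ℝ} {bc : ℕ → ℕ → Prop} {c : ℕ}
    {W : Mo T3} (hw : TOK 3 lf3 t ((w (cs c) : ℝ) : ℂ) W) :
    TOK 3 lf3 t (((RTK tb w bc).ch (cs c) : ℝ) : ℂ) (chK c (tb c) W) := by
  have e0 : Pool.Agent.Helper6.MONO.W2.TY.sc (cs c) = c := Pool.Agent.Helper6.MONO.W2.TY.sc_cs c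
  have e : (RTK tb w bc).ch (cs c) = if c / 2 = 1 then
      ((tb c).e.al / UU : ℝ) * w (cs c) - (tb c).e.be / UU else
      ((tb c).e.al / UU : ℝ) - (tb c).e.be / UU * w (cs c) := by
    show (if (cs c).2 = 1 then ((tb (Pool.Agent.Helper6.MONO.W2.TY.sc (cs c))).e.al / UU : ℝ) *
        w (cs c) - (tb (Pool.Agent.Helper6.MONO.W2.TY.sc (cs c))).e.be / UU
      else ((tb (Pool.Agent.Helper6.MONO.W2.TY.sc (cs c))).e.al / UU : ℝ) -
        (tb (Pool.Agent.Helper6.MONO.W2.TY.sc (cs c))).e.be / UU * w (cs c)) = _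
    rw [e0]
    rfl
  rw [e]
  unfold chK
  cases hb : Nat.beq (Nat.div c (nat_lit 2)) (nat_lit 1) with
  | true =>
    have h1 : c / 2 = 1 := Nat.eq_of_beq_eq_true hb
    rw [if_pos h1]
    refine tc (((cst_nat a3 hP _).mul a3 hP hw).sub a3 (cst_nat a3 hP _)) ?_
    push_cast
    ring
  | false =>
    have h1 : ¬ c / 2 = 1 := fun h => by
      have : Nat.beq (Nat.div c 2) 1 = true := by
        rw [show Nat.div c 2 = 1 from h]
        rfl
      rw [this] at hb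
      cases hb
    rw [if_neg h1]
    refine tc ((cst_nat a3 hP _).sub a3 ((cst_nat a3 hP _).mul a3 hP hw)) ?_
    push_cast
    ring

section

variable {T : TK κ γ} {KV : κ → (ℕ → ℝ) → Mt} {t : ℕ → ℝ} {p : ℕ} {v vd : V3} {F : FH T3}
  {L : LM T3} {k1 k2 : κ} {d : γ} {S S' : Mt} {Sl Sr : V9 T3}

/-- **THE DISPATCHER FOR THE TABLE `RTK`** -/
theorem itK_K (hT : TKL KV T) (hP : PT 3 t) (h2 : brJ 1 v v = 2) (hF : HOK 3 lf3 t v vd F)
    {tb : ℕ → LE} {bc : ℕ → ℕ → Prop} {c : ℕ} (hL : LOK 3 lf3 t p v vd (cs c) L)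
    (hl : TV 3 lf3 t (XH.hL v vd S) Sl) (hr : TV 3 lf3 t (XH.hR v vd S') Sr) {P : ℕ}
    (h : itK T F L (tb c) (chK c (tb c) L.w) c P k1 k2 Sl Sr d = true) :
    sat (RTK tb (nW (phi p) v) bc) (phi p) v vd (cs c) (Pd P) (cK v (KV k1 t)) (cK v (KV k2 t))
      S S' :=
  itK_ok hT hP h2 hF hL (RL_K tb _ bc c) (ch_K hP hL.w) hl hr h

theorem itI_K (hT : TKL KV T) (hP : PT 3 t) (h2 : brJ 1 v v = 2) (hF : HOK 3 lf3 t v vd F)
    {tb : ℕ → LE} {bc : ℕ → ℕ → Prop} {c : ℕ} (hL : LOK 3 lf3 t p v vd (cs c) L) {P : ℕ}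
    {kt : κ} {m : Mu} (h : itI T F L (tb c) (chK c (tb c) L.w) c P k1 kt m = true) :
    sati (RTK tb (nW (phi p) v) bc) (phi p) v (cs c) (Pd P) (cK v (KV k1 t)) (cK v (KV kt t)) :=
  itI_ok hT hP h2 hF hL (RL_K tb _ bc c) (ch_K hP hL.w) h

end

end Pool.Agent.Helper26.IT
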