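import Pool.Agent.Helper26.C75.XM

/-!
MP_c75db0, Plan W, M7: the item models in the transported (hatted) coordinates,
`c X c = D^ + M^ L^ - R^ M^`, `M^ = c M c`, `D^ = c D c`, `L^ = c S - H`, `R^ = S' c - H`,
`H = (c' c) / 2`, `c = rfJ 1 v`, `c c = 1`.
-/

set_option autoImplicit false
noncomputable section
namespace Pool.Agent.Helper26.XH

open Pool.Agent.Helper90.C75
open Pool.Agent.Helper90.KMT
open Pool.Agent.Helper90.KMO
open Pool.Agent.Helper86.CX (Cx)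
open Pool.Agent.Helper86.CT (Alg Mo er mk cst addM subM mulM conjM)
open Pool.Agent.Helper17.K9 (V9)
open Pool.Agent.Helper62.TVM
open Pool.Agent.Helper26.XM
open Pool.Agent.Helper6.MONO.W2 (Sy J1 nG nX rfJ rfd adJ nR nRd nRr nW nWd rM rMr rD ns nsd sDm nc
  brJ rfJ_sqM rfJ_mulVec)

/-! ### the kernel side -/

/-- the box: `v`, `vd`, `<vd, v>`, `c`, `H` -/
structure FH (α : Type) where
  v : V3m α
  vd : V3m α
  z : Mo α
  c : V9 α
  h : V9 α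

def fh1 {α : Type} (A : Alg α) (v vd : V3m α) (c : V9 α) : FH α :=
  ⟨v, vd, dtW A vd (jW A v), c, hfV A (mulV A (cdM A v vd) c)⟩
/-- once per box -/
def fhM {α : Type} (A : Alg α) (v vd : V3m α) : FH α := fh1 A v vd (cMm A v)

/-- `L^ = c S - H`, once per gauge before -/
def lhM {α : Type} (A : Alg α) (F : FH α) (S : V9 α) : V9 α := subV A (mulV A F.c S) F.h
/-- `R^ = S' c - H`, once per gauge after -/
def rhM' {α : Type} (A : Alg α) (F : FH α) (S : V9 α) : V9 α := subV A (mulV A S F.c) F.h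

/-- `P_i = D^ + M^ L^`, once per part and gauge before -/
def piM {α : Type} (A : Alg α) (M D L : V9 α) : V9 α := addV A D (mulV A M L)
/-- the same for `D = 0` -/
def pi0 {α : Type} (A : Alg α) (M L : V9 α) : V9 α := mulV A M L
/-- `N_j = R^ M^`, once per part and gauge after -/
def njM {α : Type} (A : Alg α) (M R : V9 α) : V9 α := mulV A R M
/-- the item -/
def xij {α : Type} (A : Alg α) (P N : V9 α) : V9 α := subV A P N

/-- rotation `c diag (e, f, 1) c` -/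
def mth {α : Type} (A : Alg α) (F : FH α) (e f : Mo α) : V9 α :=
  mulV A (drV A F.c ⟨e, f, oneM A⟩) F.c

def rh3 {α : Type} (A : Alg α) (F : FH α) (sd : V3m α) (w wd r g1 g2 n t : Mo α) (s : V3m α) :
    RX α :=
  ⟨s, addW A (addW A (subW A sd (smW A r F.vd))
      (smW A (subM A (subM A (mulM A r F.z) n) g2) F.v)) (smW A (hfM A g1) s), t,
    addM A (subM A (subM A (mulM A wd r) wd) (mulM A g1 t)) (mulM A g2 (subM A (addM A r r) w))⟩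
def rh2 {α : Type} (A : Alg α) (F : FH α) (sg sd : V3m α) (w wd r g1 g2 : Mo α) : RX α :=
  rh3 A F sd w wd r g1 g2 (mulM A sd.a (conjM A sg.a)) (subM A (addM A w (mulM A r r)) (mulM A w r))
    (subW A sg (smW A (subM A w r) F.v))
/-- run with `a1`, `a2`: data of `M^`, `D^` (parts ex, v1) -/
def rhE {α : Type} (A : Alg α) (F : FH α) (sg sd : V3m α) (w wd r a1 a2 : Mo α) : RX α :=
  rh2 A F sg sd w wd r (mulM A wd a1) (mulM A wd a2)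

def rp3 {α : Type} (A : Alg α) (F : FH α) (sd : V3m α) (wd r g1 n t : Mo α) (s : V3m α) : RX α :=
  ⟨s, addW A (addW A (subW A sd (smW A r F.vd)) (smW A (subM A (mulM A r F.z) n) F.v))
      (smW A (hfM A g1) s), t, subM A (subM A (mulM A wd r) wd) (mulM A g1 t)⟩
/-- run with `a2 = 0` (part v0) -/
def rhV {α : Type} (A : Alg α) (F : FH α) (sg sd : V3m α) (w wd r a1 : Mo α) : RX α :=
  rp3 A F sd wd r (mulM A wd a1) (mulM A sd.a (conjM A sg.a))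
    (subM A (addM A w (mulM A r r)) (mulM A w r)) (subW A sg (smW A (subM A w r) F.v))

def rq3 {α : Type} (A : Alg α) (F : FH α) (sd : V3m α) (wd r n t : Mo α) (s : V3m α) : RX α :=
  ⟨s, addW A (subW A sd (smW A r F.vd)) (smW A (subM A (mulM A r F.z) n) F.v), t,
    subM A (mulM A wd r) wd⟩
/-- run with `a1 = a2 = 0` (part pc) -/
def rhP {α : Type} (A : Alg α) (F : FH α) (sg sd : V3m α) (w wd r : Mo α) : RX α :=
  rq3 A F sd wd r (mulM A sd.a (conjM A sg.a))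
    (subM A (addM A w (mulM A r r)) (mulM A w r)) (subW A sg (smW A (subM A w r) F.v))

def rc3 {α : Type} (A : Alg α) (F : FH α) (w r rr t : Mo α) (s : V3m α) : RX α :=
  ⟨s, subW A (smW A (cst A (nat_lit 140737488355328) (nat_lit 0)) s) (smW A rr F.v), t,
    subM A (mulM A rr (subM A (addM A r r) w)) t⟩
/-- recession direction (part rc): `D^ = c (rM + rr rMr) c` -/
def rhC {α : Type} (A : Alg α) (F : FH α) (sg : V3m α) (w r rr : Mo α) : RX α :=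
  rc3 A F w r rr (subM A (addM A w (mulM A r r)) (mulM A w r))
    (subW A sg (smW A (subM A w r) F.v))

/-! ### the real side -/

/-- the item in the hatted coordinates -/
def hX (v vd : Fin 3 → ℂ) (M D S S' : Matrix (Fin 3) (Fin 3) ℂ) : Matrix (Fin 3) (Fin 3) ℂ :=
  rfJ 1 v * nX v vd M D S S' * rfJ 1 v
/-- `c M c` -/
def hM (v : Fin 3 → ℂ) (M : Matrix (Fin 3) (Fin 3) ℂ) : Matrix (Fin 3) (Fin 3) ℂ :=
  rfJ 1 v * M * rfJ 1 v
/-- `H` -/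
def hH (v vd : Fin 3 → ℂ) : Matrix (Fin 3) (Fin 3) ℂ := (1 / 2 : ℂ) • (rfd 1 0 v vd * rfJ 1 v)
/-- `L^` -/
def hL (v vd : Fin 3 → ℂ) (S : Matrix (Fin 3) (Fin 3) ℂ) : Matrix (Fin 3) (Fin 3) ℂ :=
  rfJ 1 v * S - hH v vd
/-- `R^` -/
def hR (v vd : Fin 3 → ℂ) (S : Matrix (Fin 3) (Fin 3) ℂ) : Matrix (Fin 3) (Fin 3) ℂ :=
  S * rfJ 1 v - hH v vd

/-- THE FORMULA -/
theorem hX_eq {v vd : Fin 3 → ℂ} (h : rfJ 1 v * rfJ 1 v = 1)
    (M D S S' : Matrix (Fin 3) (Fin 3) ℂ) :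
    hX v vd M D S S' = (hM v D + hM v M * hL v vd S) - hR v vd S' * hM v M := by
  unfold hX hM hL hR hH nX nG
  have h1 : ∀ Z : Matrix (Fin 3) (Fin 3) ℂ, rfJ 1 v * (rfJ 1 v * Z) = Z := fun Z => by
    rw [← mul_assoc, h, one_mul]
  simp only [mul_sub, sub_mul, mul_add, add_mul, mul_smul_comm, smul_mul_assoc, smul_sub, mul_assoc,
    h1, h, mul_one]
  abel

theorem oJ_c (x y v : Fin 3 → ℂ) : oJ x y * rfJ 1 v = oJ x ((rfJ 1 v).mulVec y) := by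
  rw [rfJ_oJ, mul_add, mul_neg, mul_oJ, mul_smul_comm, mul_one]
  ext i j
  have e : ∀ k, ((-oJ v v + (1 : ℂ) • (1 : Matrix (Fin 3) (Fin 3) ℂ)).mulVec y) k =
      y k - (y 0 * star (v 0) + y 1 * star (v 1) - y 2 * star (v 2)) * v k := by
    intro k
    rw [Matrix.add_mulVec, Matrix.neg_mulVec, one_smul, Matrix.one_mulVec]
    simp only [Pi.add_apply, Pi.neg_apply, oJ, Matrix.mulVec, dotProduct, Fin.sum_univ_three,
      Matrix.of_apply]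
    simp
    ring
  simp only [oJ, Matrix.mulVec, dotProduct, Fin.sum_univ_three, Matrix.of_apply, Matrix.add_apply,
    Matrix.neg_apply, Matrix.smul_apply] at e ⊢
  simp only [e]
  fin_cases j <;> simp <;> ring

theorem hM_oJ (v x y : Fin 3 → ℂ) : hM v (oJ x y) =
    oJ ((rfJ 1 v).mulVec x) ((rfJ 1 v).mulVec y) := by
  unfold hM
  rw [mul_oJ, oJ_c]

theorem hM_add (v : Fin 3 → ℂ) (M N : Matrix (Fin 3) (Fin 3) ℂ) : hM v (M + N) = hM v M + hM v N := by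
  unfold hM
  rw [mul_add, add_mul]
theorem hM_sub (v : Fin 3 → ℂ) (M N : Matrix (Fin 3) (Fin 3) ℂ) : hM v (M - N) = hM v M - hM v N := by
  unfold hM
  rw [mul_sub, sub_mul]
theorem hM_smul (v : Fin 3 → ℂ) (s : ℂ) (M : Matrix (Fin 3) (Fin 3) ℂ) :
    hM v (s • M) = s • hM v M := by
  unfold hM
  rw [mul_smul_comm, smul_mul_assoc]
theorem hM_one {v : Fin 3 → ℂ} (h : rfJ 1 v * rfJ 1 v = 1) : hM v 1 = 1 := by
  unfold hM
  rw [mul_one, h]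

/-- the hatted data -/
def sH (φ : ℝ) (v : Fin 3 → ℂ) (g : Sy) (ρ : ℝ) : Fin 3 → ℂ :=
  ns φ v g.1 g.2 - ((nW φ v g - ρ : ℝ) : ℂ) • v
def xH (φ : ℝ) (v vd : Fin 3 → ℂ) (g : Sy) (ρ a1 a2 : ℝ) : Fin 3 → ℂ :=
  (nsd φ vd g.1 g.2 - (ρ : ℂ) • vd) + ((ρ : ℂ) * brJ 1 vd v -
      nc φ vd g.1 g.2 * star (nc φ v g.1 g.2) - ((nWd φ v vd g * a2 : ℝ) : ℂ)) • v +
    ((1 / 2 * (nWd φ v vd g * a1) : ℝ) : ℂ) • sH φ v g ρ

theorem brJ_ns (φ : ℝ) (u v : Fin 3 → ℂ) (a : Bool) (k : ℕ) :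
    brJ 1 (ns φ u a k) v = nc φ u a k * star (nc φ v a k) := by
  unfold brJ ns
  have e : star (nc φ v a k) = star (v 0) + star (v 1) *
      Pool.Agent.Helper6.MONO.W2.ev φ a k := by
    unfold nc
    rw [star_add, star_mul', star_star]
  rw [e]
  simp
  ring

theorem nsd_eq (φ : ℝ) (u : Fin 3 → ℂ) (a : Bool) (k : ℕ) : nsd φ u a k = ns φ u a k := rfl

theorem nW_brJ (φ : ℝ) (v : Fin 3 → ℂ) (g : Sy) :
    brJ 1 (ns φ v g.1 g.2) v = ((nW φ v g : ℝ) : ℂ) := by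
  rw [brJ_ns]
  unfold nW
  have := Complex.mul_conj (nc φ v g.1 g.2)
  rw [Complex.normSq_eq_norm_sq] at this
  exact this

theorem c_s {v : Fin 3 → ℂ} (h : brJ 1 v v = 2) (φ : ℝ) (g : Sy) (ρ : ℝ) :
    (rfJ 1 v).mulVec (sR φ v g ρ) = sH φ v g ρ := by
  unfold sR sH
  rw [Matrix.mulVec_sub, Matrix.mulVec_smul, rfJ_mulVec, rfJ_mulVec, nW_brJ, h]
  ext i
  simp only [Pi.sub_apply, Pi.smul_apply, smul_eq_mul]
  push_cast
  ring

theorem c_x {v vd : Fin 3 → ℂ} (h : brJ 1 v v = 2) (φ : ℝ) (g : Sy) (ρ a1 a2 : ℝ) :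
    (rfJ 1 v).mulVec (xR φ v vd g ρ a1 a2) = xH φ v vd g ρ a1 a2 := by
  unfold xR xH
  rw [Matrix.mulVec_add, Matrix.mulVec_add, Matrix.mulVec_sub, Matrix.mulVec_smul,
    Matrix.mulVec_smul, Matrix.mulVec_smul, c_s h, rfJ_mulVec, rfJ_mulVec, rfJ_mulVec, nsd_eq,
    brJ_ns, h]
  ext i
  simp only [Pi.sub_apply, Pi.add_apply, Pi.smul_apply, smul_eq_mul]
  push_cast
  ring

theorem hM_rM {v : Fin 3 → ℂ} (h : brJ 1 v v = 2) (φ : ℝ) (g : Sy) (ρ : ℝ) :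
    hM v (rM φ v g ρ) = oJ (sH φ v g ρ) (sH φ v g ρ) - tR φ v g ρ • 1 := by
  rw [← rM_run, hM_sub, hM_smul, hM_one (rfJ_sqM h), hM_oJ, c_s h]

theorem hM_rD {v vd : Fin 3 → ℂ} (h : brJ 1 v v = 2) (φ : ℝ) (g : Sy) (ρ a1 a2 : ℝ) :
    hM v (rD φ v vd g ρ a1 a2) = oJ (xH φ v vd g ρ a1 a2) (sH φ v g ρ) +
      oJ (sH φ v g ρ) (xH φ v vd g ρ a1 a2) + uR φ v vd g ρ a1 a2 • 1 := by
  rw [← rD_run, hM_add, hM_add, hM_smul, hM_one (rfJ_sqM h), hM_oJ, hM_oJ, c_s h, c_x h]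

theorem rMr_oJ (φ : ℝ) (v : Fin 3 → ℂ) (g : Sy) (ρ : ℝ) :
    rMr φ v g ρ = oJ v (sR φ v g ρ) + oJ (sR φ v g ρ) v + ((2 * ρ - nW φ v g : ℝ) : ℂ) • 1 := by
  ext i j
  fin_cases j <;> simp [rMr, nRr, oJ, sR]

/-- data of the recession direction -/
def xC (φ : ℝ) (v : Fin 3 → ℂ) (g : Sy) (ρ rr : ℝ) : Fin 3 → ℂ :=
  (1 / 2 : ℂ) • sH φ v g ρ - (rr : ℂ) • v
def uC (φ : ℝ) (v : Fin 3 → ℂ) (g : Sy) (ρ rr : ℝ) : ℂ :=
  (rr : ℂ) * ((ρ + ρ - nW φ v g : ℝ) : ℂ) - tR φ v g ρ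

theorem c_v {v : Fin 3 → ℂ} (h : brJ 1 v v = 2) : (rfJ 1 v).mulVec v = -v := by
  rw [rfJ_mulVec, h]
  ext i
  simp only [Pi.sub_apply, Pi.smul_apply, smul_eq_mul, Pi.neg_apply]
  ring

theorem hM_rc {v : Fin 3 → ℂ} (h : brJ 1 v v = 2) (φ : ℝ) (g : Sy) (ρ rr : ℝ) :
    hM v (rM φ v g ρ + ((rr : ℝ) : ℂ) • rMr φ v g ρ) =
      oJ (xC φ v g ρ rr) (sH φ v g ρ) + oJ (sH φ v g ρ) (xC φ v g ρ rr) +
        uC φ v g ρ rr • 1 := by
  rw [hM_add, hM_smul, hM_rM h, rMr_oJ, hM_add, hM_add, hM_smul, hM_one (rfJ_sqM h), hM_oJ, hM_oJ,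
    c_s h, c_v h]
  ext i j
  simp only [oJ, xC, uC, Matrix.add_apply, Matrix.sub_apply, Matrix.smul_apply, Matrix.of_apply,
    smul_eq_mul, Pi.sub_apply, Pi.smul_apply, Pi.neg_apply]
  have e : star (1 / 2 : ℂ) = 1 / 2 := by
    have h5 := Complex.conj_ofReal (1 / 2 : ℝ)
    push_cast at h5
    exact h5
  fin_cases j <;>
    simp only [Fin.zero_eta, Fin.mk_one, Fin.reduceFinMk, Matrix.cons_val_zero,
      Matrix.cons_val_one, Matrix.cons_val, star_sub, star_neg, star_mul', e,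
      Complex.star_def, Complex.conj_ofReal] <;> push_cast <;> ring

section

variable {α : Type} {D : ℕ} {lf : α → Vt D → ℂ} {A : Alg α} {t : ℕ → ℝ}
variable {v vd : Fin 3 → ℂ} {Vm Vd : V3m α} {F : FH α}

/-- MODELS OF THE BOX -/
structure HOK (D : ℕ) (lf : α → Vt D → ℂ) (t : ℕ → ℝ) (v vd : Fin 3 → ℂ) (F : FH α) : Prop where
  hv : TW D lf t v F.v
  hvd : TW D lf t vd F.vd
  hz : TOK D lf t (brJ 1 vd v) F.z
  hc : TV D lf t (rfJ 1 v) F.c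
  hh : TV D lf t (hH v vd) F.h

theorem HOK_fh (hA : AOK D lf A) (hP : PT D t) (hv : TW D lf t v Vm) (hd : TW D lf t vd Vd) :
    HOK D lf t v vd (fhM A Vm Vd) := by
  refine ⟨hv, hd, ?_, TV_c hA hP hv, ((TV_cd hA hP hv hd).mul hA hP (TV_c hA hP hv)).half hA hP⟩
  refine tc (hd.dt hA hP (hv.jw hA hP)) ?_
  simp [brJ]
  ring

variable {S S' M Dm : Matrix (Fin 3) (Fin 3) ℂ} {U Mm Dd L R : V9 α}

theorem TV_lh (hA : AOK D lf A) (hP : PT D t) (hF : HOK D lf t v vd F) (hS : TV D lf t S U) :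
    TV D lf t (hL v vd S) (lhM A F U) := (hF.hc.mul hA hP hS).sub hA hF.hh
theorem TV_rh (hA : AOK D lf A) (hP : PT D t) (hF : HOK D lf t v vd F) (hS : TV D lf t S U) :
    TV D lf t (hR v vd S) (rhM' A F U) := (hS.mul hA hP hF.hc).sub hA hF.hh

theorem TV_pi (hA : AOK D lf A) (hP : PT D t) (hM' : TV D lf t (hM v M) Mm)
    (hD : TV D lf t (hM v Dm) Dd) (hl : TV D lf t (hL v vd S) L) :
    TV D lf t (hM v Dm + hM v M * hL v vd S) (piM A Mm Dd L) := hD.add hA (hM'.mul hA hP hl)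
theorem TV_pi0 (hA : AOK D lf A) (hP : PT D t) (hM' : TV D lf t (hM v M) Mm)
    (hl : TV D lf t (hL v vd S) L) :
    TV D lf t (hM v 0 + hM v M * hL v vd S) (pi0 A Mm L) :=
  (hM'.mul hA hP hl).congr (by unfold hM; rw [mul_zero, zero_mul, zero_add])
theorem TV_nj (hA : AOK D lf A) (hP : PT D t) (hM' : TV D lf t (hM v M) Mm)
    (hr : TV D lf t (hR v vd S') R) :
    TV D lf t (hR v vd S' * hM v M) (njM A Mm R) := hr.mul hA hP hM'

/-- THE ITEM OF A PAIR -/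
theorem TV_ij (hA : AOK D lf A) (h : brJ 1 v v = 2) {P N : V9 α}
    (hp : TV D lf t (hM v Dm + hM v M * hL v vd S) P) (hn : TV D lf t (hR v vd S' * hM v M) N) :
    TV D lf t (hX v vd M Dm S S') (xij A P N) :=
  (hp.sub hA hn).congr (hX_eq (rfJ_sqM h) M Dm S S').symm

/-- rotations -/
theorem TV_mth (hA : AOK D lf A) (hP : PT D t) (hF : HOK D lf t v vd F) {φ : ℝ} {g : Sy}
    (hg : g.2 % 2 = 0) {E F' : Mo α}
    (he : TOK D lf t ((if g.1 then star (Pool.Agent.Helper6.MONO.W2.ep φ) else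
        Pool.Agent.Helper6.MONO.W2.ep φ) ^ g.2) E)
    (hf : TOK D lf t ((if g.1 then Pool.Agent.Helper6.MONO.W2.ep φ else
        star (Pool.Agent.Helper6.MONO.W2.ep φ)) ^ g.2) F') :
    TV D lf t (hM v (sDm φ g.1 g.2)) (mth A F E F') := by
  have hw : TW D lf t ![(if g.1 then star (Pool.Agent.Helper6.MONO.W2.ep φ) else
        Pool.Agent.Helper6.MONO.W2.ep φ) ^ g.2, (if g.1 then Pool.Agent.Helper6.MONO.W2.ep φ else
        star (Pool.Agent.Helper6.MONO.W2.ep φ)) ^ g.2, 1] ⟨E, F', oneM A⟩ :=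
    ⟨tc he (by simp), tc hf (by simp), tc (TOK_one hA hP) (by simp)⟩
  refine (((hF.hc.dr hA hP hw)).mul hA hP hF.hc).congr ?_
  unfold hM
  rw [sDm_even φ g.1 g.2 hg]
  congr 2
  ext i j
  fin_cases i <;> fin_cases j <;> simp [Matrix.diagonal]

variable {φ : ℝ} {g : Sy} {ρ a1 a2 : ℝ} {Vs Vsd : V3m α} {W Wd Rm A1 A2 : Mo α}

theorem TW_sH (hA : AOK D lf A) (hP : PT D t) (hF : HOK D lf t v vd F)
    (hs : TW D lf t (ns φ v g.1 g.2) Vs) (hw : TOK D lf t ((nW φ v g : ℝ) : ℂ) W)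
    (hr : TOK D lf t ((ρ : ℝ) : ℂ) Rm) :
    TW D lf t (sH φ v g ρ) (subW A Vs (smW A (subM A W Rm) F.v)) :=
  hs.sub hA (hF.hv.smul hA hP (tc (hw.sub hA hr) (by push_cast; ring)))

theorem TOK_n (hA : AOK D lf A) (hP : PT D t)
    (hs : TW D lf t (ns φ v g.1 g.2) Vs) (hsd : TW D lf t (nsd φ vd g.1 g.2) Vsd) :
    TOK D lf t (nc φ vd g.1 g.2 * star (nc φ v g.1 g.2)) (mulM A Vsd.a (conjM A Vs.a)) :=
  tc (hsd.a.mul hA hP (hs.a.conj hA)) (by simp [ns, nsd])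

theorem TOK_t (hA : AOK D lf A) (hP : PT D t) (hw : TOK D lf t ((nW φ v g : ℝ) : ℂ) W)
    (hr : TOK D lf t ((ρ : ℝ) : ℂ) Rm) :
    TOK D lf t (tR φ v g ρ) (subM A (addM A W (mulM A Rm Rm)) (mulM A W Rm)) :=
  tc ((hw.add hA (hr.mul hA hP hr)).sub hA (hw.mul hA hP hr)) (by unfold tR; push_cast; ring)

/-- the data of a run in hatted coordinates, `a1` and `a2` (parts ex, v1) -/
theorem ROK_E (hA : AOK D lf A) (hP : PT D t) (hF : HOK D lf t v vd F)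
    (hs : TW D lf t (ns φ v g.1 g.2) Vs) (hsd : TW D lf t (nsd φ vd g.1 g.2) Vsd)
    (hw : TOK D lf t ((nW φ v g : ℝ) : ℂ) W) (hwd : TOK D lf t ((nWd φ v vd g : ℝ) : ℂ) Wd)
    (hr : TOK D lf t ((ρ : ℝ) : ℂ) Rm) (h1 : TOK D lf t ((a1 : ℝ) : ℂ) A1)
    (h2 : TOK D lf t ((a2 : ℝ) : ℂ) A2) :
    ROK D lf t (sH φ v g ρ) (xH φ v vd g ρ a1 a2) (tR φ v g ρ) (uR φ v vd g ρ a1 a2)
      (rhE A F Vs Vsd W Wd Rm A1 A2) := by
  have hS := TW_sH hA hP hF hs hw hr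
  have g1 : TOK D lf t ((nWd φ v vd g * a1 : ℝ) : ℂ) (mulM A Wd A1) :=
    tc (hwd.mul hA hP h1) (by push_cast; ring)
  have g2 : TOK D lf t ((nWd φ v vd g * a2 : ℝ) : ℂ) (mulM A Wd A2) :=
    tc (hwd.mul hA hP h2) (by push_cast; ring)
  have g3 : TOK D lf t ((1 / 2 * (nWd φ v vd g * a1) : ℝ) : ℂ) (hfM A (mulM A Wd A1)) :=
    tc (TOK_hf hA hP g1) (by push_cast; ring)
  have hT := TOK_t hA hP hw hr
  have hn := TOK_n hA hP hs hsd
  refine ⟨hS, ?_, hT, ?_⟩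
  · exact ((hsd.sub hA (hF.hvd.smul hA hP hr)).add hA
      (hF.hv.smul hA hP (((hr.mul hA hP hF.hz).sub hA hn).sub hA g2))).add hA (hS.smul hA hP g3)
  · refine tc ((((hwd.mul hA hP hr).sub hA hwd).sub hA (g1.mul hA hP hT)).add hA
      (g2.mul hA hP ((hr.add hA hr).sub hA hw))) ?_
    unfold tR uR
    push_cast
    ring

/-- `a2 = 0` (part v0) -/
theorem ROK_V (hA : AOK D lf A) (hP : PT D t) (hF : HOK D lf t v vd F)
    (hs : TW D lf t (ns φ v g.1 g.2) Vs) (hsd : TW D lf t (nsd φ vd g.1 g.2) Vsd)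
    (hw : TOK D lf t ((nW φ v g : ℝ) : ℂ) W) (hwd : TOK D lf t ((nWd φ v vd g : ℝ) : ℂ) Wd)
    (hr : TOK D lf t ((ρ : ℝ) : ℂ) Rm) (h1 : TOK D lf t ((a1 : ℝ) : ℂ) A1) :
    ROK D lf t (sH φ v g ρ) (xH φ v vd g ρ a1 0) (tR φ v g ρ) (uR φ v vd g ρ a1 0)
      (rhV A F Vs Vsd W Wd Rm A1) := by
  have hS := TW_sH hA hP hF hs hw hr
  have g1 : TOK D lf t ((nWd φ v vd g * a1 : ℝ) : ℂ) (mulM A Wd A1) :=
    tc (hwd.mul hA hP h1) (by push_cast; ring)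
  have g3 : TOK D lf t ((1 / 2 * (nWd φ v vd g * a1) : ℝ) : ℂ) (hfM A (mulM A Wd A1)) :=
    tc (TOK_hf hA hP g1) (by push_cast; ring)
  have hT := TOK_t hA hP hw hr
  have hn := TOK_n hA hP hs hsd
  refine ⟨hS, ?_, hT, ?_⟩
  · refine (((hsd.sub hA (hF.hvd.smul hA hP hr)).add hA
      (hF.hv.smul hA hP ((hr.mul hA hP hF.hz).sub hA hn))).add hA (hS.smul hA hP g3)).congr ?_
    unfold xH
    rw [mul_zero, Complex.ofReal_zero, sub_zero]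
  · refine tc (((hwd.mul hA hP hr).sub hA hwd).sub hA (g1.mul hA hP hT)) ?_
    unfold tR uR
    push_cast
    ring

/-- `a1 = a2 = 0` (part pc) -/
theorem ROK_P (hA : AOK D lf A) (hP : PT D t) (hF : HOK D lf t v vd F)
    (hs : TW D lf t (ns φ v g.1 g.2) Vs) (hsd : TW D lf t (nsd φ vd g.1 g.2) Vsd)
    (hw : TOK D lf t ((nW φ v g : ℝ) : ℂ) W) (hwd : TOK D lf t ((nWd φ v vd g : ℝ) : ℂ) Wd)
    (hr : TOK D lf t ((ρ : ℝ) : ℂ) Rm) :
    ROK D lf t (sH φ v g ρ) (xH φ v vd g ρ 0 0) (tR φ v g ρ) (uR φ v vd g ρ 0 0)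
      (rhP A F Vs Vsd W Wd Rm) := by
  have hS := TW_sH hA hP hF hs hw hr
  have hT := TOK_t hA hP hw hr
  have hn := TOK_n hA hP hs hsd
  refine ⟨hS, ?_, hT, ?_⟩
  · refine ((hsd.sub hA (hF.hvd.smul hA hP hr)).add hA
      (hF.hv.smul hA hP ((hr.mul hA hP hF.hz).sub hA hn))).congr ?_
    unfold xH
    rw [mul_zero, mul_zero, Complex.ofReal_zero, sub_zero, zero_smul, add_zero]
  · refine tc ((hwd.mul hA hP hr).sub hA hwd) ?_
    unfold uR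
    push_cast
    ring

/-- the recession direction (part rc) -/
theorem ROK_C (hA : AOK D lf A) (hP : PT D t) (hF : HOK D lf t v vd F) {rr : ℝ} {RR : Mo α}
    (hs : TW D lf t (ns φ v g.1 g.2) Vs) (hw : TOK D lf t ((nW φ v g : ℝ) : ℂ) W)
    (hr : TOK D lf t ((ρ : ℝ) : ℂ) Rm) (hrr : TOK D lf t ((rr : ℝ) : ℂ) RR) :
    ROK D lf t (sH φ v g ρ) (xC φ v g ρ rr) (tR φ v g ρ) (uC φ v g ρ rr)
      (rhC A F Vs W Rm RR) := by
  have hS := TW_sH hA hP hF hs hw hr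
  have hT := TOK_t hA hP hw hr
  have h2 : TOK D lf t (1 / 2 : ℂ) (cst A (nat_lit 140737488355328) (nat_lit 0)) :=
    TOK.cst' hA hP (by unfold UU; norm_num)
  refine ⟨hS, (hS.smul hA hP h2).sub hA (hF.hv.smul hA hP hrr), hT, ?_⟩
  refine tc ((hrr.mul hA hP ((hr.add hA hr).sub hA hw)).sub hA hT) ?_
  unfold uC
  push_cast
  ring

variable {Q : RX α}

/-- `c rM c` -/
theorem TV_hM (hA : AOK D lf A) (hP : PT D t) (h : brJ 1 v v = 2) {x : Fin 3 → ℂ} {σ : ℂ}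
    (hQ : ROK D lf t (sH φ v g ρ) x (tR φ v g ρ) σ Q) :
    TV D lf t (hM v (rM φ v g ρ)) (mrM A Q) := (TV_mr hA hP hQ).congr (hM_rM h φ g ρ).symm

/-- `c rD c` -/
theorem TV_hD (hA : AOK D lf A) (hP : PT D t) (h : brJ 1 v v = 2)
    (hQ : ROK D lf t (sH φ v g ρ) (xH φ v vd g ρ a1 a2) (tR φ v g ρ) (uR φ v vd g ρ a1 a2) Q) :
    TV D lf t (hM v (rD φ v vd g ρ a1 a2)) (drM A Q) :=
  (TV_dr hA hP hQ).congr (hM_rD h φ g ρ a1 a2).symm

/-- `c (rM + rr rMr) c` -/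
theorem TV_hC (hA : AOK D lf A) (hP : PT D t) (h : brJ 1 v v = 2) {rr : ℝ}
    (hQ : ROK D lf t (sH φ v g ρ) (xC φ v g ρ rr) (tR φ v g ρ) (uC φ v g ρ rr) Q) :
    TV D lf t (hM v (rM φ v g ρ + ((rr : ℝ) : ℂ) • rMr φ v g ρ)) (drM A Q) :=
  (TV_dr hA hP hQ).congr (hM_rc h φ g ρ rr).symm

end

end Pool.Agent.Helper26.XH
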