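import Pool.Agent.Helper26.C75.IT2

/-!
MP_c75db0, Plan W: THE TESTS OF THE INCLUSIONS WITH A SCALE `r(t)`: `r T ≥ λ K + μ J` on the box,
`r` a product of three positive affine functions.
-/

set_option autoImplicit false
noncomputable section
namespace Pool.Agent.Helper26.SF

open Matrix
open Pool.Agent.Helper90.C75 (Vt)
open Pool.Agent.Helper90.KMT
open Pool.Agent.Helper90.KMO (UU UU_pos UUc_ne cz zv zv_p)
open Pool.Agent.Helper86.C75 (Z)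
open Pool.Agent.Helper86.CX (Cx andB)
open Pool.Agent.Helper86.CT (N3 Alg Mo KM mk cst addM subM mulM conjM invM invOK A3 A4)
open Pool.Agent.Helper17.K9 (V9)
open Pool.Agent.Helper62.TVM
open Pool.Agent.Helper62.SQM
open Pool.Agent.Helper62.LBM
open Pool.Agent.Helper51.FR (LE LM LOK andB_t' trK HK_tr inc_hat IN_hat RTK)
open Pool.Agent.Helper26.XM
open Pool.Agent.Helper26.XH
open Pool.Agent.Helper26.IT
open Pool.Agent.Helper91.BX (CD CD3 afM TOK_af qx3 upM tu)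
open Pool.Agent.Helper82.TST (HK Lw LwOK Lw3 Lw4 Lw3_ok Lw4_ok geT cgK rgK cg9 Rk smK)
open Pool.Agent.Helper6.MONO (V3)
open Pool.Agent.Helper6.MONO.W2 (Mt NT NZ IN rfJ rM rn nW nWd ns nsd Sy sDm phi Prt RPar sati Pd
  cs sc brJ hr hv hr_conj rfJ_sq)
open Pool.Agent.Helper21.SW

/-! ### the scale -/

/-- ends of the three affine functions, units `2 ^ (-48)` -/
structure Sf where
  a0 : Nat
  b0 : Nat
  a1 : Nat
  b1 : Nat
  a2 : Nat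
  b2 : Nat

def sfOK (s : Sf) : Bool :=
  andB (Nat.ble (nat_lit 1) s.a0) (andB (Nat.ble (nat_lit 1) s.b0) (andB (Nat.ble (nat_lit 1) s.a1)
    (andB (Nat.ble (nat_lit 1) s.b1) (andB (Nat.ble (nat_lit 1) s.a2) (Nat.ble (nat_lit 1) s.b2)))))

/-- the model, for any machine with trees `qd` of the directions -/
def sfM {α : Type} (A : Alg α) (qd : Nat → Cx → Cx → Cx → α) (s : Sf) : Mo α :=
  mulM A (mulM A (afM A (qd (nat_lit 0)) s.a0 s.b0 (nat_lit 0)) (afM A (qd (nat_lit 1)) s.a1 s.b1 (nat_lit 0)))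
    (afM A (qd (nat_lit 2)) s.a2 s.b2 (nat_lit 0))

/-- an affine function -/
def afR (a b : ℕ) (x : ℝ) : ℝ := ((1 - x) * a + x * b) / UU
def sfR (s : Sf) (t : ℕ → ℝ) : ℝ := afR s.a0 s.b0 (t 0) * afR s.a1 s.b1 (t 1) * afR s.a2 s.b2 (t 2)

theorem afR_pos {a b : ℕ} {x : ℝ} (ha : 1 ≤ a) (hb : 1 ≤ b) (h0 : 0 ≤ x) (h1 : x ≤ 1) :
    0 < afR a b x := by
  have h2 : (1 : ℝ) ≤ a := by exact_mod_cast ha
  have h3 : (1 : ℝ) ≤ b := by exact_mod_cast hb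
  refine div_pos ?_ UU_pos
  nlinarith

theorem sf_pos {s : Sf} (h : sfOK s = true) {D : ℕ} {t : ℕ → ℝ} (hP : PT D t) (hD : 3 ≤ D) :
    0 < sfR s t := by
  obtain ⟨b0, h⟩ := andB_t' h
  obtain ⟨b1, h⟩ := andB_t' h
  obtain ⟨b2, h⟩ := andB_t' h
  obtain ⟨b3, h⟩ := andB_t' h
  obtain ⟨b4, b5⟩ := andB_t' h
  exact mul_pos (mul_pos
    (afR_pos (Nat.le_of_ble_eq_true b0) (Nat.le_of_ble_eq_true b1) (hP.h0 0 (by omega))
      (hP.h1 0 (by omega)))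
    (afR_pos (Nat.le_of_ble_eq_true b2) (Nat.le_of_ble_eq_true b3) (hP.h0 1 (by omega))
      (hP.h1 1 (by omega))))
    (afR_pos (Nat.le_of_ble_eq_true b4) (Nat.le_of_ble_eq_true b5) (hP.h0 2 (by omega))
      (hP.h1 2 (by omega)))

section

variable {α : Type} {D : ℕ} {lf : α → Vt D → ℂ} {A : Alg α} {t : ℕ → ℝ}

theorem TOK_af' (hA : AOK D lf A) (hP : PT D t) {j : ℕ} {q : Cx → Cx → Cx → α}
    (hq : CD D j lf q) (hj : j < D) (a b : ℕ) :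
    TOK D lf t ((afR a b (t j) : ℝ) : ℂ) (afM A q a b (nat_lit 0)) := by
  refine TOK_af hA hP hq hj (r := 0) ?_
  have e : (2 : ℝ) ^ 48 = UU := by unfold UU; norm_num
  rw [e]
  unfold afR
  rw [mul_div_cancel₀ _ UU_pos.ne', sub_self, abs_zero]
  exact le_of_eq Nat.cast_zero.symm

/-- MODEL OF THE SCALE -/
theorem TOK_sf (hA : AOK D lf A) (hP : PT D t) (hD : 3 ≤ D) {qd : ℕ → Cx → Cx → Cx → α}
    (hq : ∀ j < 3, CD D j lf (qd j)) (s : Sf) : TOK D lf t ((sfR s t : ℝ) : ℂ) (sfM A qd s) := by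
  refine tc (((TOK_af' hA hP (hq 0 (by omega)) (by omega) s.a0 s.b0).mul hA hP
    (TOK_af' hA hP (hq 1 (by omega)) (by omega) s.a1 s.b1)).mul hA hP
    (TOK_af' hA hP (hq 2 (by omega)) (by omega) s.a2 s.b2)) ?_
  unfold sfR
  push_cast
  ring

theorem hr_smulM (K : Mt) (σ : ℝ) (u : V3) : hr ((σ : ℂ) • K) u = σ * hr K u := by
  have e : hv ((σ : ℂ) • K) u = (σ : ℂ) * hv K u := by
    unfold hv
    simp only [Fin.sum_univ_three, Matrix.smul_apply, smul_eq_mul]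
    ring
  unfold hr
  rw [e, Complex.re_ofReal_mul]

/-- **THE TEST WITH SCALE** -/
theorem incl_s (hA : AOK D lf A) (hP : PT D t) {F K : Mt} {M N : KM α} (hF : HK D lf t F M)
    (hK : HK D lf t K N) {r : ℝ} (h0 : 0 < r) {R : Mo α} (hR : TOK D lf t (r : ℂ) R) {L : Lw α}
    (hL : LwOK D lf L) {l : ℕ} {m : Z} (ht : geT L (nat_lit 0) l m (smK A R M) N = true)
    (u : V3) (hu : u ∈ NZ K) : 0 ≤ hr F u := by
  have h := (hF.sm hA hP hR).incl hP hK hL ht u hu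
  rw [hr_smulM] at h
  exact nonneg_of_mul_nonneg_right h h0

/-- THE TEST OF AN INCLUSION -/
theorem inc_trS (hA : AOK D lf A) (hP : PT D t) {v : V3} (h2 : brJ 1 v v = 2) {Ke Ki : Mt}
    {M N : KM α} (hi : HK D lf t Ki M) (he : HK D lf t Ke N) {r : ℝ} (h0 : 0 < r) {R : Mo α}
    (hR : TOK D lf t (r : ℂ) R) {L : Lw α} (hL : LwOK D lf L) {l : ℕ} {m : Z}
    (ht : geT L (nat_lit 0) l m (smK A R M) N = true) : NZ (trK v Ke) ⊆ NZ (trK v Ki) :=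
  inc_hat h2 fun u hu => incl_s hA hP hi he h0 hR hL ht u hu

/-- THE TEST OF THE INVARIANCE: `F` = model of `(c M c)^* (c^* Kt c) (c M c)` -/
theorem IN_trS (hA : AOK D lf A) (hP : PT D t) {v : V3} (h2 : brJ 1 v v = 2) {K1 Kt M N : Mt}
    {F G : KM α} (hN : rfJ 1 v * M * rfJ 1 v = N)
    (hF : HK D lf t (N.conjTranspose * trK v Kt * N) F) (hK : HK D lf t K1 G) {r : ℝ} (h0 : 0 < r)
    {R : Mo α} (hR : TOK D lf t (r : ℂ) R) {L : Lw α} (hL : LwOK D lf L) {l : ℕ} {m : Z}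
    (ht : geT L (nat_lit 0) l m (smK A R F) G = true) : IN (trK v K1) (trK v Kt) v M := by
  refine IN_hat h2 fun u hu => ?_
  rw [hN, ← hr_conj]
  exact incl_s hA hP hF hK h0 hR hL ht u hu

end

/-! ### the dispatcher of the invariance with scale -/

variable {κ γ : Type}

def j3M (m : Mu) (R : Mo T3) (K Kc : KM T3) (M : V9 T3) : Bool :=
  geT Lw3 (nat_lit 0) m.l m.m (smK A3 R (cg9 A3 M Kc)) K
def j3Q (m : Mu) (R : Mo T3) (K Kc : KM T3) (Q : RX T3) : Bool :=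
  geT Lw3 (nat_lit 0) m.l m.m (smK A3 R (rgK A3 Q.t Kc Q.s)) K
def j4Q (m : Mu) (R : Mo T4) (K Kc : KM T4) (Q : RX T4) : Bool :=
  geT Lw4 (nat_lit 0) m.l m.m (smK A4 R (rgK A4 Q.t Kc Q.s)) K
def jiE (F : FH T3) (L : LM T3) (m : Mu) (R : Mo T3) (K Kc : KM T3) (n : Nat) : Bool :=
  Nat.rec (motive := fun _ => Bool) false
    (fun j _ => andB (exOK L j) (j3Q m R K Kc (qX F L (rhM A3 L.w (invM A3 L.w) j)))) n
def jiD (F : FH T3) (L : LM T3) (E : LE) (C : Mo T3) (c : Nat) (m : Mu) (R : Mo T3)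
    (K Kc : KM T3) (k n : Nat) : Bool :=
  cond (Nat.beq k (nat_lit 0)) (andB (Nat.beq (Nat.mod (Nat.div c (nat_lit 2)) (nat_lit 2)) (nat_lit 0))
      (j3M m R K Kc (mth A3 F L.P (conjM A3 L.P))))
    (cond (Nat.beq k (nat_lit 1)) (jiE F L m R K Kc n)
      (cond (Nat.beq k (nat_lit 2))
        (j4Q m (upM R) (upK K) (upK Kc) (qP (upH F) (upL L) (roM E C n)))
        (cond (Nat.beq k (nat_lit 3))
          (j4Q m (upM R) (upK K) (upK Kc) (qP (upH F) (upL L) (roM E C n)))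
          (cond (Nat.beq k (nat_lit 4)) true (Nat.beq k (nat_lit 5))))))
/-- **ONE INVARIANCE ITEM WITH SCALE** -/
def itS (T : TK κ γ) (F : FH T3) (L : LM T3) (E : LE) (C : Mo T3) (c P : Nat) (k1 kt : κ)
    (m : Mu) (s : Sf) : Bool :=
  andB (sfOK s) (jiD F L E C c m (sfM A3 qx3 s) (T.km k1) (kcM T F kt) (Nat.mod P (nat_lit 8))
    (Nat.div P (nat_lit 8)))

section

variable {T : TK κ γ} {KV : κ → (ℕ → ℝ) → Mt} {t : ℕ → ℝ} {p : ℕ} {v vd : V3} {F : FH T3}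
  {L : LM T3} {E : LE} {R : RPar} {C : Mo T3}

theorem j3Q_ok (hP : PT 3 t) (h2 : brJ 1 v v = 2) {K1 Kt : Mt} {K Kc : KM T3}
    (hK : HK 3 lf3 t K1 K) (hc : HK 3 lf3 t (trK v Kt) Kc) {φ ρ : ℝ} {g : Sy} {Q : RX T3}
    {x : V3} {σ : ℂ} (hQ : ROK 3 lf3 t (sH φ v g ρ) x (tR φ v g ρ) σ Q) {r : ℝ} (h0 : 0 < r)
    {S : Mo T3} (hS : TOK 3 lf3 t (r : ℂ) S) {m : Mu}
    (h : j3Q m S K Kc Q = true) : IN (cK v K1) (cK v Kt) v (rM φ v g ρ) :=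
  IN_trS a3 hP h2 (hM_rM h2 φ g ρ) (hc.rg a3 hP hQ.hs hQ.ht) hK h0 hS Lw3_ok h

theorem j4Q_ok (h2 : brJ 1 v v = 2) {u : ℝ} (hP : PT 4 (tu 3 t u)) {K1 Kt : Mt} {K Kc : KM T4}
    (hK : HK 4 lf4 (tu 3 t u) K1 K) (hc : HK 4 lf4 (tu 3 t u) (trK v Kt) Kc) {φ ρ : ℝ} {g : Sy}
    {Q : RX T4} {x : V3} {σ : ℂ} (hQ : ROK 4 lf4 (tu 3 t u) (sH φ v g ρ) x (tR φ v g ρ) σ Q)
    {r : ℝ} (h0 : 0 < r) {S : Mo T4} (hS : TOK 4 lf4 (tu 3 t u) (r : ℂ) S) {m : Mu}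
    (h : j4Q m S K Kc Q = true) : IN (cK v K1) (cK v Kt) v (rM φ v g ρ) :=
  IN_trS a4 hP h2 (hM_rM h2 φ g ρ) (hc.rg a4 hP hQ.hs hQ.ht) hK h0 hS Lw4_ok h

/-- **THE DISPATCHER OF THE INVARIANCE WITH SCALE** -/
theorem itS_ok (hT : TKL KV T) (hP : PT 3 t) (h2 : brJ 1 v v = 2) (hF : HOK 3 lf3 t v vd F)
    {c : ℕ} (hL : LOK 3 lf3 t p v vd (cs c) L) (hR : RL R (cs c) E)
    (hC : TOK 3 lf3 t ((R.ch (cs c) : ℝ) : ℂ) C) {P : ℕ} {k1 kt : κ} {m : Mu} {s : Sf}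
    (h : itS T F L E C c P k1 kt m s = true) :
    sati R (phi p) v (cs c) (Pd P) (cK v (KV k1 t)) (cK v (KV kt t)) := by
  have e : ∀ {a : ℕ}, Nat.beq (Nat.mod P (nat_lit 8)) a = true → P % 8 = a := fun h =>
    Nat.eq_of_beq_eq_true h
  obtain ⟨hs, h⟩ := andB_t' h
  have r0 := sf_pos hs hP le_rfl
  have hS := TOK_sf a3 hP le_rfl CD3 s
  have hK := hT.km (k := k1) hP
  have hc : HK 3 lf3 t (trK v (KV kt t)) (kcM T F kt) := HK_tr a3 hP hF.hv (hT.km (k := kt) hP)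
  unfold jiD at h
  rcases condB h with ⟨hk, h⟩ | h
  · rw [Pd_k, e hk]
    obtain ⟨b1, b2⟩ := andB_t' h
    exact IN_trS a3 hP h2 rfl (hc.g9 a3 hP (rot_M hP hF hL (even_of b1))) hK r0 hS Lw3_ok b2
  rcases condB h with ⟨hk, h⟩ | h
  · rw [Pd_k, e hk]
    show IN _ _ v (rM (phi p) v (cs c) (rn (nW (phi p) v (cs c)) (P / 8)))
    have h' : jiE F L m (sfM A3 qx3 s) (T.km k1) (kcM T F kt) (P / 8) = true := h
    generalize P / 8 = n at h' ⊢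
    cases n with
    | zero => exact absurd h' Bool.false_ne_true
    | succ j =>
      obtain ⟨b1, b2⟩ := andB_t' (show andB (exOK L j) (j3Q m (sfM A3 qx3 s) (T.km k1) (kcM T F kt)
        (qX F L (rhM A3 L.w (invM A3 L.w) j))) = true from h')
      have hx := exOK_ok hP hL.w b1
      exact j3Q_ok hP h2 hK hc (ROK_E a3 hP hF hL.s hL.sd hL.w hL.wd hx.r hx.h hx.g) r0 hS b2
  rcases condB h with ⟨hk, h⟩ | h
  · rw [Pd_k, e hk]
    intro τ b1 b2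
    obtain ⟨u, h0, h1, hP4, hρ⟩ := ro_ex hP hR hC b1 b2
    have hL4 := LOK_up hL h0 h1
    exact j4Q_ok h2 hP4 (kU hK h0 h1) (kU hc h0 h1) (ROK_P a4 hP4 (HOK_up hF h0 h1) hL4.s hL4.sd
      hL4.w hL4.wd hρ) r0 (tU hS h0 h1) h
  rcases condB h with ⟨hk, h⟩ | h
  · rw [Pd_k, e hk]
    intro τ b1 b2
    obtain ⟨u, h0, h1, hP4, hρ⟩ := ro_ex hP hR hC b1 b2
    have hL4 := LOK_up hL h0 h1
    exact j4Q_ok h2 hP4 (kU hK h0 h1) (kU hc h0 h1) (ROK_P a4 hP4 (HOK_up hF h0 h1) hL4.s hL4.sd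
      hL4.w hL4.wd hρ) r0 (tU hS h0 h1) h
  rcases condB h with ⟨hk, h⟩ | h
  · rw [Pd_k, e hk]
    trivial
  · rw [Pd_k, e h]
    trivial

theorem itS_K (hT : TKL KV T) (hP : PT 3 t) (h2 : brJ 1 v v = 2) (hF : HOK 3 lf3 t v vd F)
    {tb : ℕ → LE} {bc : ℕ → ℕ → Prop} {c : ℕ} (hL : LOK 3 lf3 t p v vd (cs c) L) {P : ℕ}
    {k1 kt : κ} {m : Mu} {s : Sf}
    (h : itS T F L (tb c) (chK c (tb c) L.w) c P k1 kt m s = true) :
    sati (RTK tb (nW (phi p) v) bc) (phi p) v (cs c) (Pd P) (cK v (KV k1 t)) (cK v (KV kt t)) :=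
  itS_ok hT hP h2 hF hL (RL_K tb _ bc c) (ch_K hP hL.w) h

/-- an inclusion `NZ (Ke) ⊆ NZ (Ki)` with scale -/
def incS (T : TK κ γ) (ki ke : κ) (m : Mu) (s : Sf) : Bool :=
  andB (sfOK s) (geT Lw3 (nat_lit 0) m.l m.m (smK A3 (sfM A3 qx3 s) (T.km ki)) (T.km ke))

theorem incS_ok (hT : TKL KV T) (hP : PT 3 t) (h2 : brJ 1 v v = 2) {ki ke : κ} {m : Mu} {s : Sf}
    (h : incS T ki ke m s = true) : NZ (cK v (KV ke t)) ⊆ NZ (cK v (KV ki t)) := by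
  obtain ⟨hs, h⟩ := andB_t' h
  exact inc_trS a3 hP h2 (hT.km hP) (hT.km hP) (sf_pos hs hP le_rfl) (TOK_sf a3 hP le_rfl CD3 s)
    Lw3_ok h

end

end Pool.Agent.Helper26.SF
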