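import Pool.Agent.Helper21.SW.M7T
import Pool.Agent.Helper51.FR.Hat

/-!
MP_c75db0, Plan W, row M7 (A): THE DISPATCHER. One item of a cell (part code `P`, forms `k1`, `k2`,
models of the two gauges) as a Boolean; one invariance item as a Boolean.
-/

set_option autoImplicit false
noncomputable section
namespace Pool.Agent.Helper26.IT

open Matrix
open Pool.Agent.Helper90.C75 (Vt)
open Pool.Agent.Helper90.KMT
open Pool.Agent.Helper90.KMO (UU UU_pos UUc_ne cz zv zv_p)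
open Pool.Agent.Helper86.C75 (Z)
open Pool.Agent.Helper86.CX (Cx andB)
open Pool.Agent.Helper86.CT (N3 Alg Mo KM mk cst addM subM mulM conjM invM invOK A3 A4)
open Pool.Agent.Helper17.K9 (V9)
open Pool.Agent.Helper62.TVM
open Pool.Agent.Helper62.SQM
open Pool.Agent.Helper62.LBM
open Pool.Agent.Helper51.FR (LE LM LOK chM cst_nat UU_nat RTab andB_t' trK NZ_trK HK_tr IN_gen
  IN_run)
open Pool.Agent.Helper26.XM
open Pool.Agent.Helper26.XH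
open Pool.Agent.Helper91.BX (crM cr_ex upM upW upV tu)
open Pool.Agent.Helper82.TST (HK Lw LwOK Lw3 Lw4 Lw3_ok Lw4_ok geT cgK rgK cg9 Rk)
open Pool.Agent.Helper6.MONO (V3)
open Pool.Agent.Helper6.MONO.W2 (Mt NT NZ IN rfJ nX rM rMr rD rn h1 h2 nW nWd ns nsd Sy sDm phi Prt
  RPar sat sati Pd cs sc sc_cs brJ rfJ_sq rfJ_uni rfJ_sqM ep)
open Pool.Agent.Helper21.SW

variable {κ γ : Type}

/-! ### the kernel side -/

/-- a form of depth `D` as a form of depth `D + 1` -/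
def upK {α : Type} (K : KM α) : KM (N3 α) := ⟨upM K.a, upM K.b, upM K.c, upM K.x, upM K.y, upM K.w⟩

/-- the model of `ch` in the table `RTab` -/
def chE (c : Nat) (E : LE) (W : Mo T3) : Mo T3 :=
  cond (Nat.beq (Nat.div c (nat_lit 2)) (nat_lit 1)) (hfM A3 W) (chM A3 E.e.al E.e.be W)

/-- the parameter `ρ = τ ch` of piece `i` -/
def roM (E : LE) (C : Mo T3) (i : Nat) : Mo T4 :=
  mulM A4 (crM A3 (E.tau.getD i (nat_lit 0)) (E.tau.getD (Nat.succ i) (nat_lit 0))) (upM C)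

/-- the runs of the four kinds of pieces -/
def qP (F : FH T4) (L : LM T4) (r : Mo T4) : RX T4 := rhP A4 F L.s L.sd L.w L.wd r
def qV (F : FH T4) (L : LM T4) (H : Nat) (r : Mo T4) : RX T4 :=
  rhV A4 F L.s L.sd L.w L.wd r (cst A4 H (nat_lit 0))
def qE1 (F : FH T4) (L : LM T4) (r h : Mo T4) : RX T4 :=
  rhE A4 F L.s L.sd L.w L.wd r h (mulM A4 (cst A4 (nat_lit 93824992236886) (nat_lit 0)) h)
def qE (F : FH T4) (L : LM T4) (H : Nat) (r : Mo T4) : RX T4 := qE1 F L r (cst A4 H (nat_lit 0))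
def qC (F : FH T4) (L : LM T4) (r : Mo T4) : RX T4 :=
  rhC A4 F L.s L.w r (cst A4 (nat_lit 93824992236886) (nat_lit 0))

def t3a (T : TK κ γ) (k1 k2 : κ) (g : γ) (L R M D : V9 T3) : Bool :=
  T.t3 k1 k2 g M (xij A3 (piM A3 M D L) (njM A3 M R))
def t3b (T : TK κ γ) (k1 k2 : κ) (g : γ) (L R M : V9 T3) : Bool :=
  T.t3 k1 k2 g M (xij A3 (pi0 A3 M L) (njM A3 M R))
/-- an exact run -/
def t3Q (T : TK κ γ) (k1 k2 : κ) (g : γ) (L R : V9 T3) (Q : RX T3) : Bool :=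
  t3a T k1 k2 g L R (mrM A3 Q) (drM A3 Q)
def t4a (T : TK κ γ) (k1 k2 : κ) (g : γ) (L R M D : V9 T4) : Bool :=
  T.t4 k1 k2 g M (xij A4 (piM A4 M D L) (njM A4 M R))
/-- a piece of a family -/
def t4Q (T : TK κ γ) (k1 k2 : κ) (g : γ) (L R : V9 T4) (Q : RX T4) : Bool :=
  t4a T k1 k2 g L R (mrM A4 Q) (drM A4 Q)
/-- a recession direction -/
def t4C (T : TK κ γ) (k1 k2 : κ) (g : γ) (Q : RX T4) : Bool := T.t4 k1 k2 g (mrM A4 Q) (drM A4 Q)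

/-- kind 0 -/
def itR (T : TK κ γ) (F : FH T3) (L : LM T3) (c : Nat) (k1 k2 : κ) (Sl Sr : V9 T3) (g : γ) : Bool :=
  andB (Nat.beq (Nat.mod (Nat.div c (nat_lit 2)) (nat_lit 2)) (nat_lit 0))
    (t3b T k1 k2 g Sl Sr (mth A3 F L.P (conjM A3 L.P)))
/-- the data of an exact run (`n = m + 1`) -/
def qX (F : FH T3) (L : LM T3) (x : RH T3) : RX T3 := rhE A3 F L.s L.sd L.w L.wd x.r x.h x.g
/-- the tests of an exact run -/
def exOK (L : LM T3) (m : Nat) : Bool := andB (invOK A3 L.w) (rhOK A3 L.w (invM A3 L.w) m)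
/-- kind 1 -/
def itE (T : TK κ γ) (F : FH T3) (L : LM T3) (k1 k2 : κ) (Sl Sr : V9 T3) (g : γ) (n : Nat) : Bool :=
  Nat.rec (motive := fun _ => Bool) false
    (fun m _ => andB (exOK L m) (t3Q T k1 k2 g Sl Sr (qX F L (rhM A3 L.w (invM A3 L.w) m)))) n

/-- the kinds, `k = P % 8`, `n = P / 8` -/
def itD (T : TK κ γ) (F : FH T3) (L : LM T3) (E : LE) (C : Mo T3) (c : Nat) (k1 k2 : κ)
    (Sl Sr : V9 T3) (g : γ) (k n : Nat) : Bool :=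
  cond (Nat.beq k (nat_lit 0)) (itR T F L c k1 k2 Sl Sr g)
    (cond (Nat.beq k (nat_lit 1)) (itE T F L k1 k2 Sl Sr g n)
      (cond (Nat.beq k (nat_lit 2)) (t4Q T k1 k2 g (upV Sl) (upV Sr) (qP (upH F) (upL L) (roM E C n)))
        (cond (Nat.beq k (nat_lit 3))
          (t4Q T k1 k2 g (upV Sl) (upV Sr) (qV (upH F) (upL L) E.e.H (roM E C n)))
          (cond (Nat.beq k (nat_lit 4))
            (t4Q T k1 k2 g (upV Sl) (upV Sr) (qE (upH F) (upL L) E.e.H (roM E C n)))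
            (cond (Nat.beq k (nat_lit 5)) (t4C T k1 k2 g (qC (upH F) (upL L) (roM E C n)))
              false)))))

/-- **ONE ITEM**: `F` box, `L` letter, `E` family, `C` model of `ch`, `c` code of the syllable,
`P` code of the part, `Sl`, `Sr` models of `L^` and `R^` -/
def itK (T : TK κ γ) (F : FH T3) (L : LM T3) (E : LE) (C : Mo T3) (c P : Nat) (k1 k2 : κ)
    (Sl Sr : V9 T3) (g : γ) : Bool :=
  itD T F L E C c k1 k2 Sl Sr g (Nat.mod P (nat_lit 8)) (Nat.div P (nat_lit 8))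

/-- the form of the target in the coordinates of the window -/
def kcM (T : TK κ γ) (F : FH T3) (kt : κ) : KM T3 := cgK A3 (T.km kt) F.v
def i3M (m : Mu) (K Kc : KM T3) (M : V9 T3) : Bool :=
  geT Lw3 (nat_lit 0) m.l m.m (cg9 A3 M Kc) K
def i3Q (m : Mu) (K Kc : KM T3) (Q : RX T3) : Bool :=
  geT Lw3 (nat_lit 0) m.l m.m (rgK A3 Q.t Kc Q.s) K
def i4Q (m : Mu) (K Kc : KM T4) (Q : RX T4) : Bool :=
  geT Lw4 (nat_lit 0) m.l m.m (rgK A4 Q.t Kc Q.s) K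
def iiE (F : FH T3) (L : LM T3) (m : Mu) (K Kc : KM T3) (n : Nat) : Bool :=
  Nat.rec (motive := fun _ => Bool) false
    (fun j _ => andB (exOK L j) (i3Q m K Kc (qX F L (rhM A3 L.w (invM A3 L.w) j)))) n
def iiD (F : FH T3) (L : LM T3) (E : LE) (C : Mo T3) (c : Nat) (m : Mu) (K Kc : KM T3)
    (k n : Nat) : Bool :=
  cond (Nat.beq k (nat_lit 0)) (andB (Nat.beq (Nat.mod (Nat.div c (nat_lit 2)) (nat_lit 2)) (nat_lit 0))
      (i3M m K Kc (mth A3 F L.P (conjM A3 L.P))))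
    (cond (Nat.beq k (nat_lit 1)) (iiE F L m K Kc n)
      (cond (Nat.beq k (nat_lit 2)) (i4Q m (upK K) (upK Kc) (qP (upH F) (upL L) (roM E C n)))
        (cond (Nat.beq k (nat_lit 3)) (i4Q m (upK K) (upK Kc) (qP (upH F) (upL L) (roM E C n)))
          (cond (Nat.beq k (nat_lit 4)) true (Nat.beq k (nat_lit 5))))))
/-- **ONE INVARIANCE ITEM** -/
def itI (T : TK κ γ) (F : FH T3) (L : LM T3) (E : LE) (C : Mo T3) (c P : Nat) (k1 kt : κ)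
    (m : Mu) : Bool :=
  iiD F L E C c m (T.km k1) (kcM T F kt) (Nat.mod P (nat_lit 8)) (Nat.div P (nat_lit 8))

/-! ### the real side -/

/-- the item in the hatted coordinates -/
theorem NT_hat {v : V3} (h2 : brJ 1 v v = 2) {K1 K2 X M : Mt}
    (H : NT K1 K2 (rfJ 1 v * X * rfJ 1 v) (rfJ 1 v * M * rfJ 1 v)) :
    NT (cK v K1) (cK v K2) X M := by
  intro u hu y hy
  have hu' : (rfJ 1 v).mulVec u ∈ NZ K1 := (NZ_trK h2 K1 u).1 hu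
  have hy' : (rfJ 1 v).mulVec y ∈ NZ K2 := (NZ_trK h2 K2 y).1 hy
  have h := H _ hu' _ hy'
  rw [← Matrix.mulVec_mulVec, ← Matrix.mulVec_mulVec, ← Matrix.mulVec_mulVec,
    ← Matrix.mulVec_mulVec, rfJ_sq h2, rfJ_uni h2, rfJ_uni h2] at h
  exact h

/-- the laws of the table of the families -/
structure RL (R : RPar) (g : Sy) (E : LE) : Prop where
  τ : ∀ i, R.τ g i = ((E.tau.getD i 0 : ℕ) : ℝ) / UU
  H : R.H g = (E.e.H : ℝ) / UU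
  rr : R.rr = 93824992236886 / UU

theorem RL_tab (tb : ℕ → LE) (w : Sy → ℝ) (bc : ℕ → ℕ → Prop) (c : ℕ) :
    RL (RTab tb w bc) (cs c) (tb c) := by
  refine ⟨fun i => ?_, ?_, rfl⟩
  · show (((tb (sc (cs c))).tau.getD i 0 : ℕ) : ℝ) / UU = _
    rw [sc_cs]
  · show ((tb (sc (cs c))).e.H : ℝ) / UU = _
    rw [sc_cs]

section

variable {T : TK κ γ} {KV : κ → (ℕ → ℝ) → Mt} {t : ℕ → ℝ} {p : ℕ} {v vd : V3} {F : FH T3}
  {L : LM T3} {g : Sy}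

theorem ch_tab (hP : PT 3 t) {tb : ℕ → LE} {w : Sy → ℝ} {bc : ℕ → ℕ → Prop} {c : ℕ} {W : Mo T3}
    (hw : TOK 3 lf3 t ((w (cs c) : ℝ) : ℂ) W) :
    TOK 3 lf3 t (((RTab tb w bc).ch (cs c) : ℝ) : ℂ) (chE c (tb c) W) := by
  have e : (RTab tb w bc).ch (cs c) = if c / 2 = 1 then w (cs c) / 2 else
      ((tb c).e.al / UU : ℝ) - (tb c).e.be / UU * w (cs c) := by
    show (if (cs c).2 = 1 then _ else ((tb (sc (cs c))).e.al / UU : ℝ) -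
      (tb (sc (cs c))).e.be / UU * w (cs c)) = _
    rw [sc_cs]
    rfl
  rw [e]
  unfold chE
  cases hb : Nat.beq (Nat.div c (nat_lit 2)) (nat_lit 1) with
  | true =>
    have h1 : c / 2 = 1 := Nat.eq_of_beq_eq_true hb
    rw [if_pos h1]
    exact tc (TOK_hf a3 hP hw) (by push_cast; ring)
  | false =>
    have h1 : ¬ c / 2 = 1 := fun h => by
      have : Nat.beq (Nat.div c 2) 1 = true := by
        rw [show Nat.div c 2 = 1 from h]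
        rfl
      rw [this] at hb
      cases hb
    rw [if_neg h1]
    refine tc ((cst_nat a3 hP _).sub a3 ((cst_nat a3 hP _).mul a3 hP hw)) ?_
    push_cast
    ring

theorem tU {f : ℂ} {M : Mo T3} (h : TOK 3 lf3 t f M) {u : ℝ} (h0 : 0 ≤ u) (h1 : u ≤ 1) :
    TOK 4 lf4 (tu 3 t u) f (upM M) := Pool.Agent.Helper91.BX.TOK.up h h0 h1
theorem wU {x : V3} {X : V3m T3} (h : TW 3 lf3 t x X) {u : ℝ} (h0 : 0 ≤ u) (h1 : u ≤ 1) :
    TW 4 lf4 (tu 3 t u) x (upW X) := Pool.Agent.Helper91.BX.TW.up h h0 h1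
theorem vU {M : Mt} {V : V9 T3} (h : TV 3 lf3 t M V) {u : ℝ} (h0 : 0 ≤ u) (h1 : u ≤ 1) :
    TV 4 lf4 (tu 3 t u) M (upV V) := Pool.Agent.Helper91.BX.TV.up h h0 h1
theorem kU {K : Mt} {M : KM T3} (h : HK 3 lf3 t K M) {u : ℝ} (h0 : 0 ≤ u) (h1 : u ≤ 1) :
    HK 4 lf4 (tu 3 t u) K (upK M) :=
  ⟨tU h.a h0 h1, tU h.b h0 h1, tU h.c h0 h1, tU h.x h0 h1, tU h.y h0 h1, tU h.w h0 h1, h.hm⟩

theorem HOK_up (hF : HOK 3 lf3 t v vd F) {u : ℝ} (h0 : 0 ≤ u) (h1 : u ≤ 1) :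
    HOK 4 lf4 (tu 3 t u) v vd (upH F) :=
  ⟨wU hF.hv h0 h1, wU hF.hvd h0 h1, tU hF.hz h0 h1, vU hF.hc h0 h1, vU hF.hh h0 h1⟩

theorem LOK_up (hL : LOK 3 lf3 t p v vd g L) {u : ℝ} (h0 : 0 ≤ u) (h1 : u ≤ 1) :
    LOK 4 lf4 (tu 3 t u) p v vd g (upL L) :=
  ⟨tU hL.E h0 h1, tU hL.P h0 h1, tU hL.w h0 h1, tU hL.wd h0 h1, wU hL.s h0 h1, wU hL.sd h0 h1⟩

variable {E : LE} {R : RPar} {C : Mo T3}

/-- A PIECE: the point of depth 4 and the model of `ρ` -/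
theorem ro_ex (hP : PT 3 t) (hR : RL R g E) (hC : TOK 3 lf3 t ((R.ch g : ℝ) : ℂ) C) {i : ℕ}
    {τ : ℝ} (b1 : R.τ g i ≤ τ) (b2 : τ ≤ R.τ g (i + 1)) : ∃ u : ℝ, 0 ≤ u ∧ u ≤ 1 ∧
      PT 4 (tu 3 t u) ∧ TOK 4 lf4 (tu 3 t u) ((τ * R.ch g : ℝ) : ℂ) (roM E C i) := by
  rw [hR.τ] at b1 b2
  have hU : UU = 2 ^ 48 := by unfold UU; norm_num
  obtain ⟨u, h0, h1, h2, h3⟩ := cr_ex (τ := τ) (a := E.tau.getD i 0) (b := E.tau.getD (i + 1) 0)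
    a3 hP (by norm_num) (by rw [← hU]; exact b1) (by rw [← hU]; exact b2)
  refine ⟨u, h0, h1, h2, tc (h3.mul a4 h2 (tU hC h0 h1)) ?_⟩
  push_cast
  ring

theorem H_cst (hR : RL R g E) {t : ℕ → ℝ} (hP : PT 4 t) :
    TOK 4 lf4 t ((R.H g : ℝ) : ℂ) (cst A4 E.e.H (nat_lit 0)) := by
  rw [hR.H]
  exact cst_nat a4 hP _

theorem rr_cst (hR : RL R g E) {t : ℕ → ℝ} (hP : PT 4 t) :
    TOK 4 lf4 t ((R.rr : ℝ) : ℂ) (cst A4 (nat_lit 93824992236886) (nat_lit 0)) := by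
  rw [hR.rr]
  have h := cst_nat a4 hP (93824992236886 : ℕ)
  exact tc h (by push_cast; rfl)

variable {k1 k2 : κ} {d : γ} {S S' M D : Mt} {Sl Sr Mm Dd : V9 T3}

/-- depth 3, with a derivative -/
theorem t3a_ok (hT : TKL KV T) (hP : PT 3 t) (h2 : brJ 1 v v = 2)
    (hl : TV 3 lf3 t (hL v vd S) Sl) (hr : TV 3 lf3 t (hR v vd S') Sr)
    (hM : TV 3 lf3 t (XH.hM v M) Mm) (hD : TV 3 lf3 t (XH.hM v D) Dd)
    (h : t3a T k1 k2 d Sl Sr Mm Dd = true) :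
    NT (cK v (KV k1 t)) (cK v (KV k2 t)) (nX v vd M D S S') M :=
  NT_hat h2 (hT.t3 h hP hM (TV_ij a3 h2 (TV_pi a3 hP hM hD hl) (TV_nj a3 hP hM hr)))

/-- depth 3, `D = 0` -/
theorem t3b_ok (hT : TKL KV T) (hP : PT 3 t) (h2 : brJ 1 v v = 2)
    (hl : TV 3 lf3 t (hL v vd S) Sl) (hr : TV 3 lf3 t (hR v vd S') Sr)
    (hM : TV 3 lf3 t (XH.hM v M) Mm) (h : t3b T k1 k2 d Sl Sr Mm = true) :
    NT (cK v (KV k1 t)) (cK v (KV k2 t)) (nX v vd M 0 S S') M :=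
  NT_hat h2 (hT.t3 h hP hM (TV_ij a3 h2 (TV_pi0 a3 hP hM hl) (TV_nj a3 hP hM hr)))

/-- an exact run -/
theorem t3Q_ok (hT : TKL KV T) (hP : PT 3 t) (h2 : brJ 1 v v = 2)
    (hl : TV 3 lf3 t (hL v vd S) Sl) (hr : TV 3 lf3 t (hR v vd S') Sr) {φ ρ a1 a2 : ℝ} {g : Sy}
    {Q : RX T3} (hQ : ROK 3 lf3 t (sH φ v g ρ) (xH φ v vd g ρ a1 a2) (tR φ v g ρ)
      (uR φ v vd g ρ a1 a2) Q) (h : t3Q T k1 k2 d Sl Sr Q = true) :
    NT (cK v (KV k1 t)) (cK v (KV k2 t)) (nX v vd (rM φ v g ρ) (rD φ v vd g ρ a1 a2) S S')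
      (rM φ v g ρ) :=
  t3a_ok hT hP h2 hl hr (TV_hM a3 hP h2 hQ) (TV_hD a3 hP h2 hQ) h

/-- a piece of a family -/
theorem t4Q_ok (hT : TKL KV T) (h2 : brJ 1 v v = 2) {u : ℝ} (h0 : 0 ≤ u) (h1 : u ≤ 1)
    (hP : PT 4 (tu 3 t u)) (hl : TV 3 lf3 t (hL v vd S) Sl) (hr : TV 3 lf3 t (hR v vd S') Sr)
    {φ ρ a1 a2 : ℝ} {g : Sy} {Q : RX T4} (hQ : ROK 4 lf4 (tu 3 t u) (sH φ v g ρ)
      (xH φ v vd g ρ a1 a2) (tR φ v g ρ) (uR φ v vd g ρ a1 a2) Q)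
    (h : t4Q T k1 k2 d (upV Sl) (upV Sr) Q = true) :
    NT (cK v (KV k1 t)) (cK v (KV k2 t)) (nX v vd (rM φ v g ρ) (rD φ v vd g ρ a1 a2) S S')
      (rM φ v g ρ) := by
  have hM := TV_hM a4 hP h2 hQ
  have hD := TV_hD a4 hP h2 hQ
  have h3 := hT.t4 h hP hM (TV_ij a4 h2 (TV_pi a4 hP hM hD (vU hl h0 h1))
    (TV_nj a4 hP hM (vU hr h0 h1)))
  rw [hT.up, hT.up] at h3
  exact NT_hat h2 h3

/-- a recession direction -/
theorem t4C_ok (hT : TKL KV T) (h2 : brJ 1 v v = 2) {u : ℝ}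
    (hP : PT 4 (tu 3 t u)) {φ ρ rr : ℝ} {g : Sy} {Q : RX T4}
    (hQ : ROK 4 lf4 (tu 3 t u) (sH φ v g ρ) (xC φ v g ρ rr) (tR φ v g ρ) (uC φ v g ρ rr) Q)
    (h : t4C T k1 k2 d Q = true) :
    NT (cK v (KV k1 t)) (cK v (KV k2 t)) (rM φ v g ρ + ((rr : ℝ) : ℂ) • rMr φ v g ρ)
      (rM φ v g ρ) := by
  have h3 := hT.t4 h hP (TV_hM a4 hP h2 hQ) (TV_hC a4 hP h2 hQ)
  rw [hT.up, hT.up] at h3
  exact NT_hat h2 h3

/-- the tests of an exact run -/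
theorem exOK_ok (hP : PT 3 t) {w : ℝ} (hw : TOK 3 lf3 t ((w : ℝ) : ℂ) L.w) {m : ℕ}
    (h : exOK L m = true) : TRH 3 lf3 t w (m + 1) (rhM A3 L.w (invM A3 L.w) m) := by
  obtain ⟨b1, b2⟩ := andB_t' h
  exact TRH_all a3 hP hw (TOK.inv a3 hP hw b1).1 m b2

theorem even_of {c : ℕ} (h : Nat.beq (Nat.mod (Nat.div c (nat_lit 2)) (nat_lit 2)) (nat_lit 0) =
    true) : (cs c).2 % 2 = 0 := Nat.eq_of_beq_eq_true h

theorem condB {x y z : Bool} (h : cond x y z = true) : (x = true ∧ y = true) ∨ z = true := by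
  cases x
  · exact Or.inr h
  · exact Or.inl ⟨rfl, h⟩

theorem rot_M (hP : PT 3 t) (hF : HOK 3 lf3 t v vd F) (hL : LOK 3 lf3 t p v vd g L)
    (hg : g.2 % 2 = 0) :
    TV 3 lf3 t (hM v (sDm (phi p) g.1 g.2)) (mth A3 F L.P (conjM A3 L.P)) := by
  refine TV_mth a3 hP hF hg hL.P (tc (hL.P.conj a3) ?_)
  show star _ = _
  rw [star_pow]
  cases g.1 <;> simp

theorem Pd_k {P : ℕ} : Pd P = match P % 8 with
  | 0 => Prt.rot
  | 1 => Prt.ex (P / 8)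
  | 2 => Prt.pc (P / 8)
  | 3 => Prt.v0 (P / 8)
  | 4 => Prt.v1 (P / 8)
  | 5 => Prt.rc (P / 8)
  | 6 => Prt.bx (P / 8)
  | _ => Prt.bt (P / 8) := rfl

/-- **THE DISPATCHER** -/
theorem itK_ok (hT : TKL KV T) (hP : PT 3 t) (h2 : brJ 1 v v = 2) (hF : HOK 3 lf3 t v vd F)
    {c : ℕ} (hL : LOK 3 lf3 t p v vd (cs c) L) (hR : RL R (cs c) E)
    (hC : TOK 3 lf3 t ((R.ch (cs c) : ℝ) : ℂ) C) (hl : TV 3 lf3 t (XH.hL v vd S) Sl)
    (hr : TV 3 lf3 t (XH.hR v vd S') Sr) {P : ℕ}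
    (h : itK T F L E C c P k1 k2 Sl Sr d = true) :
    sat R (phi p) v vd (cs c) (Pd P) (cK v (KV k1 t)) (cK v (KV k2 t)) S S' := by
  have e : ∀ {a : ℕ}, Nat.beq (Nat.mod P (nat_lit 8)) a = true → P % 8 = a := fun h =>
    Nat.eq_of_beq_eq_true h
  unfold itK itD at h
  rcases condB h with ⟨hk, h⟩ | h
  · rw [Pd_k, e hk]
    obtain ⟨b1, b2⟩ := andB_t' h
    exact t3b_ok hT hP h2 hl hr (rot_M hP hF hL (even_of b1)) b2
  rcases condB h with ⟨hk, h⟩ | h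
  · rw [Pd_k, e hk]
    show NT _ _ (nX v vd (rM (phi p) v (cs c) (rn (nW (phi p) v (cs c)) (P / 8)))
      (rD (phi p) v vd (cs c) (rn (nW (phi p) v (cs c)) (P / 8))
        (h1 (nW (phi p) v (cs c)) (P / 8)) (Pool.Agent.Helper6.MONO.W2.h2
          (nW (phi p) v (cs c)) (P / 8))) S S')
      (rM (phi p) v (cs c) (rn (nW (phi p) v (cs c)) (P / 8)))
    have h' : itE T F L k1 k2 Sl Sr d (P / 8) = true := h
    generalize P / 8 = n at h' ⊢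
    cases n with
    | zero => exact absurd h' Bool.false_ne_true
    | succ m =>
      obtain ⟨b1, b2⟩ := andB_t' (show andB (exOK L m) (t3Q T k1 k2 d Sl Sr
        (qX F L (rhM A3 L.w (invM A3 L.w) m))) = true from h')
      have hx := exOK_ok hP hL.w b1
      exact t3Q_ok hT hP h2 hl hr (ROK_E a3 hP hF hL.s hL.sd hL.w hL.wd hx.r hx.h hx.g) b2
  rcases condB h with ⟨hk, h⟩ | h
  · rw [Pd_k, e hk]
    intro τ b1 b2
    obtain ⟨u, h0, h1, hP4, hρ⟩ := ro_ex hP hR hC b1 b2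
    have hL4 := LOK_up hL h0 h1
    exact t4Q_ok hT h2 h0 h1 hP4 hl hr (ROK_P a4 hP4 (HOK_up hF h0 h1) hL4.s hL4.sd hL4.w hL4.wd
      hρ) h
  rcases condB h with ⟨hk, h⟩ | h
  · rw [Pd_k, e hk]
    intro τ b1 b2
    obtain ⟨u, h0, h1, hP4, hρ⟩ := ro_ex hP hR hC b1 b2
    have hL4 := LOK_up hL h0 h1
    exact t4Q_ok hT h2 h0 h1 hP4 hl hr (ROK_V a4 hP4 (HOK_up hF h0 h1) hL4.s hL4.sd hL4.w hL4.wd
      hρ (H_cst hR hP4)) h
  rcases condB h with ⟨hk, h⟩ | h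
  · rw [Pd_k, e hk]
    intro τ b1 b2
    obtain ⟨u, h0, h1, hP4, hρ⟩ := ro_ex hP hR hC b1 b2
    have hL4 := LOK_up hL h0 h1
    refine t4Q_ok hT h2 h0 h1 hP4 hl hr (ROK_E a4 hP4 (HOK_up hF h0 h1) hL4.s hL4.sd hL4.w hL4.wd
      hρ (H_cst hR hP4) (tc ((rr_cst hR hP4).mul a4 hP4 (H_cst hR hP4)) ?_)) h
    push_cast
    ring
  rcases condB h with ⟨hk, h⟩ | h
  · rw [Pd_k, e hk]
    intro τ b1 b2
    obtain ⟨u, h0, h1, hP4, hρ⟩ := ro_ex hP hR hC b1 b2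
    have hL4 := LOK_up hL h0 h1
    exact t4C_ok hT h2 hP4 (ROK_C a4 hP4 (HOK_up hF h0 h1) hL4.s hL4.w hρ (rr_cst hR hP4)) h
  exact absurd h Bool.false_ne_true

/-- invariance, a run -/
theorem i3Q_ok (hP : PT 3 t) (h2 : brJ 1 v v = 2) {K1 Kt : Mt} {K Kc : KM T3}
    (hK : HK 3 lf3 t K1 K) (hc : HK 3 lf3 t (trK v Kt) Kc) {φ ρ : ℝ} {g : Sy} {Q : RX T3}
    {x : V3} {σ : ℂ} (hQ : ROK 3 lf3 t (sH φ v g ρ) x (tR φ v g ρ) σ Q) {m : Mu}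
    (h : i3Q m K Kc Q = true) : IN (cK v K1) (cK v Kt) v (rM φ v g ρ) :=
  IN_run a3 hP h2 hc (hM_rM h2 φ g ρ) hQ.hs hQ.ht hK Lw3_ok h

theorem i4Q_ok (h2 : brJ 1 v v = 2) {u : ℝ} (hP : PT 4 (tu 3 t u)) {K1 Kt : Mt} {K Kc : KM T4}
    (hK : HK 4 lf4 (tu 3 t u) K1 K) (hc : HK 4 lf4 (tu 3 t u) (trK v Kt) Kc) {φ ρ : ℝ} {g : Sy}
    {Q : RX T4} {x : V3} {σ : ℂ} (hQ : ROK 4 lf4 (tu 3 t u) (sH φ v g ρ) x (tR φ v g ρ) σ Q)
    {m : Mu} (h : i4Q m K Kc Q = true) : IN (cK v K1) (cK v Kt) v (rM φ v g ρ) :=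
  IN_run a4 hP h2 hc (hM_rM h2 φ g ρ) hQ.hs hQ.ht hK Lw4_ok h

/-- **THE DISPATCHER OF THE INVARIANCE** -/
theorem itI_ok (hT : TKL KV T) (hP : PT 3 t) (h2 : brJ 1 v v = 2) (hF : HOK 3 lf3 t v vd F)
    {c : ℕ} (hL : LOK 3 lf3 t p v vd (cs c) L) (hR : RL R (cs c) E)
    (hC : TOK 3 lf3 t ((R.ch (cs c) : ℝ) : ℂ) C) {P : ℕ} {kt : κ} {m : Mu}
    (h : itI T F L E C c P k1 kt m = true) :
    sati R (phi p) v (cs c) (Pd P) (cK v (KV k1 t)) (cK v (KV kt t)) := by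
  have e : ∀ {a : ℕ}, Nat.beq (Nat.mod P (nat_lit 8)) a = true → P % 8 = a := fun h =>
    Nat.eq_of_beq_eq_true h
  have hK := hT.km (k := k1) hP
  have hc : HK 3 lf3 t (trK v (KV kt t)) (kcM T F kt) := HK_tr a3 hP hF.hv (hT.km (k := kt) hP)
  unfold itI iiD at h
  rcases condB h with ⟨hk, h⟩ | h
  · rw [Pd_k, e hk]
    obtain ⟨b1, b2⟩ := andB_t' h
    exact IN_gen a3 hP h2 hc (rot_M hP hF hL (even_of b1)) hK Lw3_ok b2
  rcases condB h with ⟨hk, h⟩ | h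
  · rw [Pd_k, e hk]
    show IN _ _ v (rM (phi p) v (cs c) (rn (nW (phi p) v (cs c)) (P / 8)))
    have h' : iiE F L m (T.km k1) (kcM T F kt) (P / 8) = true := h
    generalize P / 8 = n at h' ⊢
    cases n with
    | zero => exact absurd h' Bool.false_ne_true
    | succ j =>
      obtain ⟨b1, b2⟩ := andB_t' (show andB (exOK L j) (i3Q m (T.km k1) (kcM T F kt)
        (qX F L (rhM A3 L.w (invM A3 L.w) j))) = true from h')
      have hx := exOK_ok hP hL.w b1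
      exact i3Q_ok hP h2 hK hc (ROK_E a3 hP hF hL.s hL.sd hL.w hL.wd hx.r hx.h hx.g) b2
  rcases condB h with ⟨hk, h⟩ | h
  · rw [Pd_k, e hk]
    intro τ b1 b2
    obtain ⟨u, h0, h1, hP4, hρ⟩ := ro_ex hP hR hC b1 b2
    have hL4 := LOK_up hL h0 h1
    exact i4Q_ok h2 hP4 (kU hK h0 h1) (kU hc h0 h1) (ROK_P a4 hP4 (HOK_up hF h0 h1) hL4.s hL4.sd
      hL4.w hL4.wd hρ) h
  rcases condB h with ⟨hk, h⟩ | h
  · rw [Pd_k, e hk]
    intro τ b1 b2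
    obtain ⟨u, h0, h1, hP4, hρ⟩ := ro_ex hP hR hC b1 b2
    have hL4 := LOK_up hL h0 h1
    exact i4Q_ok h2 hP4 (kU hK h0 h1) (kU hc h0 h1) (ROK_P a4 hP4 (HOK_up hF h0 h1) hL4.s hL4.sd
      hL4.w hL4.wd hρ) h
  rcases condB h with ⟨hk, h⟩ | h
  · rw [Pd_k, e hk]
    trivial
  · rw [Pd_k, e h]
    trivial

/-- **THE DISPATCHER FOR THE TABLE `RTab`** -/
theorem itK_tab (hT : TKL KV T) (hP : PT 3 t) (h2 : brJ 1 v v = 2) (hF : HOK 3 lf3 t v vd F)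
    {tb : ℕ → LE} {bc : ℕ → ℕ → Prop} {c : ℕ} (hL : LOK 3 lf3 t p v vd (cs c) L)
    (hl : TV 3 lf3 t (XH.hL v vd S) Sl) (hr : TV 3 lf3 t (XH.hR v vd S') Sr) {P : ℕ}
    (h : itK T F L (tb c) (chE c (tb c) L.w) c P k1 k2 Sl Sr d = true) :
    sat (RTab tb (nW (phi p) v) bc) (phi p) v vd (cs c) (Pd P) (cK v (KV k1 t)) (cK v (KV k2 t))
      S S' :=
  itK_ok hT hP h2 hF hL (RL_tab tb _ bc c) (ch_tab hP hL.w) hl hr h

theorem itI_tab (hT : TKL KV T) (hP : PT 3 t) (h2 : brJ 1 v v = 2) (hF : HOK 3 lf3 t v vd F)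
    {tb : ℕ → LE} {bc : ℕ → ℕ → Prop} {c : ℕ} (hL : LOK 3 lf3 t p v vd (cs c) L) {P : ℕ}
    {kt : κ} {m : Mu} (h : itI T F L (tb c) (chE c (tb c) L.w) c P k1 kt m = true) :
    sati (RTab tb (nW (phi p) v) bc) (phi p) v (cs c) (Pd P) (cK v (KV k1 t)) (cK v (KV kt t)) :=
  itI_ok hT hP h2 hF hL (RL_tab tb _ bc c) (ch_tab hP hL.w) h

end

end Pool.Agent.Helper26.IT
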