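import Pool.Agent.Helper62.C75.TVM
import Pool.Agent.Helper12.CW.NF7

/-!
MP_c75db0, Plan W, row M4: the matrix `X = nX` of an item over a machine of KerT.
`nX v vd M D S S' = D + M L - R M`, `L = S c - G / 2`, `R = c S' - G / 2`, `c = rfJ 1 v`,
`G = nG v vd`. Rotations: 10 products; runs (rank one plus scalar): 27 products for given `p`, `q`.
-/

set_option autoImplicit false
noncomputable section
namespace Pool.Agent.Helper26.XM

open Pool.Agent.Helper90.C75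
open Pool.Agent.Helper90.KMT
open Pool.Agent.Helper90.KMO
open Pool.Agent.Helper86.CX (Cx)
open Pool.Agent.Helper86.CT (Alg Mo er mk cst addM subM mulM conjM)
open Pool.Agent.Helper17.K9 (V9)
open Pool.Agent.Helper62.TVM
open Pool.Agent.Helper6.MONO.W2 (Sy J1 nG nX rfJ rfd adJ nR nRd nRr nW nWd rM rMr rD ns nsd sDm)

/-! ### the kernel side -/

/-- one -/
def oneM {α : Type} (A : Alg α) : Mo α := cst A (nat_lit 281474976710656) (nat_lit 0)
/-- `c = rfJ 1 v` -/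
def cMm {α : Type} (A : Alg α) (v : V3m α) : V9 α := adV A (negV A (oV A v v)) (oneM A)
/-- `rfd 1 0 v vd` -/
def cdM {α : Type} (A : Alg α) (v vd : V3m α) : V9 α := negV A (addV A (oV A vd v) (oV A v vd))

/-- `c` and `G / 2` -/
structure FX (α : Type) where
  c : V9 α
  h : V9 α

def fx1 {α : Type} (A : Alg α) (c cd : V9 α) : FX α := ⟨c, hfV A (mulV A c cd)⟩
/-- `c = rfJ 1 v` and `G / 2`, once per box -/
def fxM {α : Type} (A : Alg α) (v vd : V3m α) : FX α := fx1 A (cMm A v) (cdM A v vd)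

/-- `S c - G / 2`, once per gauge before the block -/
def lM {α : Type} (A : Alg α) (F : FX α) (S : V9 α) : V9 α := subV A (mulV A S F.c) F.h
/-- `c S' - G / 2`, once per gauge after the block -/
def rM' {α : Type} (A : Alg α) (F : FX α) (S : V9 α) : V9 α := subV A (mulV A F.c S) F.h

/-- `adJ` -/
def ajV {α : Type} (A : Alg α) (V : V9 α) : V9 α :=
  ⟨conjM A V.a, conjM A V.d, negM A (conjM A V.g),
    conjM A V.b, conjM A V.e, negM A (conjM A V.h),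
    negM A (conjM A V.c), negM A (conjM A V.f), conjM A V.i⟩
/-- the gauge `S0 + X - adJ Y` -/
def gaV {α : Type} (A : Alg α) (S0 X Y : V9 α) : V9 α := subV A (addV A S0 X) (ajV A Y)

/-- `nX`, any block (54 products) -/
def xM {α : Type} (A : Alg α) (M D L R : V9 α) : V9 α :=
  addV A D (subV A (mulV A M L) (mulV A R M))
/-- `nX`, any block with `D = 0` -/
def x0M {α : Type} (A : Alg α) (M L R : V9 α) : V9 α := subV A (mulV A M L) (mulV A R M)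
/-- `nX`, rotation `diag (e, f, 1)` (10 products) -/
def xtM {α : Type} (A : Alg α) (e f : Mo α) (L R : V9 α) : V9 α :=
  ⟨mulM A e (subM A L.a R.a), subM A (mulM A e L.b) (mulM A R.b f), subM A (mulM A e L.c) R.c,
    subM A (mulM A f L.d) (mulM A R.d e), mulM A f (subM A L.e R.e), subM A (mulM A f L.f) R.f,
    subM A L.g (mulM A R.g e), subM A L.h (mulM A R.h f), subM A L.i R.i⟩
/-- the rotation -/
def rtM {α : Type} (A : Alg α) (e f : Mo α) : V9 α :=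
  ⟨e, zeM A, zeM A, zeM A, f, zeM A, zeM A, zeM A, oneM A⟩

/-- data of a run: `M = s s^* J - τ`, `D = x s^* J + s x^* J + σ` -/
structure RX (α : Type) where
  s : V3m α
  x : V3m α
  t : Mo α
  u : Mo α

def rx3 {α : Type} (A : Alg α) (v vd sd s : V3m α) (w wd r g1 g2 t : Mo α) : RX α :=
  ⟨s, addW A (addW A (subW A sd (smW A r vd)) (smW A g2 v)) (smW A (hfM A g1) s), t,
    addM A (subM A (subM A (mulM A wd r) wd) (mulM A g1 t)) (mulM A g2 (subM A (addM A r r) w))⟩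
/-- from the models of `ns`, `nsd`, `v`, `vd`, `w`, `wd`, `ρ`, `a1`, `a2`; once per part of `g` -/
def rxM {α : Type} (A : Alg α) (v vd sg sd : V3m α) (w wd r a1 a2 : Mo α) : RX α :=
  rx3 A v vd sd (subW A sg (smW A r v)) w wd r (mulM A wd a1) (mulM A wd a2)
    (subM A (addM A w (mulM A r r)) (mulM A w r))
/-- the matrix of the run -/
def mrM {α : Type} (A : Alg α) (Q : RX α) : V9 α := sbV A (oV A Q.s Q.s) Q.t
/-- its derivative -/
def drM {α : Type} (A : Alg α) (Q : RX α) : V9 α :=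
  adV A (addV A (oV A Q.x Q.s) (oV A Q.s Q.x)) Q.u

/-- `x - R s`, once per part and gauge after the block (9 products) -/
def pM {α : Type} (A : Alg α) (Q : RX α) (R : V9 α) : V3m α := subW A Q.x (mvV A R Q.s)
/-- `x^* J + s^* J L`, once per part and gauge before the block (9 products) -/
def qM {α : Type} (A : Alg α) (Q : RX α) (L : V9 α) : V3m α :=
  addW A (jW A Q.x) (mvV A (trV L) (jW A Q.s))
/-- `nX` of a run for given `p`, `q` (27 products) -/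
def xpM {α : Type} (A : Alg α) (Q : RX α) (p q : V3m α) (L R : V9 α) : V9 α :=
  adV A (addV A (addV A (ouV A p (jW A Q.s)) (ouV A Q.s q)) (smV A Q.t (subV A R L))) Q.u
/-- `nX` of a run (45 products) -/
def xrM {α : Type} (A : Alg α) (Q : RX α) (L R : V9 α) : V9 α :=
  xpM A Q (pM A Q R) (qM A Q L) L R

/-! ### the real side -/

/-- `x ⊗ y^* J` -/
def oJ (x y : Fin 3 → ℂ) : Matrix (Fin 3) (Fin 3) ℂ :=
  Matrix.of fun i j => x i * ![star (y 0), star (y 1), -star (y 2)] j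

/-- `S c - G / 2` -/
def lR (v vd : Fin 3 → ℂ) (S : Matrix (Fin 3) (Fin 3) ℂ) : Matrix (Fin 3) (Fin 3) ℂ :=
  S * rfJ 1 v - (1 / 2 : ℂ) • nG v vd
/-- `c S' - G / 2` -/
def rR (v vd : Fin 3 → ℂ) (S : Matrix (Fin 3) (Fin 3) ℂ) : Matrix (Fin 3) (Fin 3) ℂ :=
  rfJ 1 v * S - (1 / 2 : ℂ) • nG v vd

theorem nX_LR (v vd : Fin 3 → ℂ) (M D S S' : Matrix (Fin 3) (Fin 3) ℂ) :
    nX v vd M D S S' = D + (M * lR v vd S - rR v vd S' * M) := by
  unfold nX lR rR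
  rw [mul_sub, sub_mul, mul_smul_comm, smul_mul_assoc, smul_sub, ← mul_assoc]
  abel

theorem rfJ_oJ (v : Fin 3 → ℂ) : rfJ 1 v = -oJ v v + (1 : ℂ) • 1 := by
  ext i j
  fin_cases j <;> simp [rfJ, oJ, sub_eq_neg_add]

theorem rfd_oJ (v vd : Fin 3 → ℂ) : rfd 1 0 v vd = -(oJ vd v + oJ v vd) := by
  ext i j
  fin_cases j <;> simp [rfd, oJ]

theorem rM_oJ (φ : ℝ) (v : Fin 3 → ℂ) (g : Sy) (ρ : ℝ) :
    rM φ v g ρ = oJ (ns φ v g.1 g.2 - (ρ : ℂ) • v) (ns φ v g.1 g.2 - (ρ : ℂ) • v) -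
      ((nW φ v g + ρ ^ 2 - nW φ v g * ρ : ℝ) : ℂ) • 1 := by
  ext i j
  fin_cases j <;> simp [rM, nR, oJ]

theorem rD_oJ (φ : ℝ) (v vd : Fin 3 → ℂ) (g : Sy) (ρ a1 a2 : ℝ) :
    rD φ v vd g ρ a1 a2 =
      oJ ((nsd φ vd g.1 g.2 - (ρ : ℂ) • vd) + ((nWd φ v vd g * a2 : ℝ) : ℂ) • v +
          ((1 / 2 * (nWd φ v vd g * a1) : ℝ) : ℂ) • (ns φ v g.1 g.2 - (ρ : ℂ) • v))
        (ns φ v g.1 g.2 - (ρ : ℂ) • v) +
      oJ (ns φ v g.1 g.2 - (ρ : ℂ) • v)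
        ((nsd φ vd g.1 g.2 - (ρ : ℂ) • vd) + ((nWd φ v vd g * a2 : ℝ) : ℂ) • v +
          ((1 / 2 * (nWd φ v vd g * a1) : ℝ) : ℂ) • (ns φ v g.1 g.2 - (ρ : ℂ) • v)) +
      ((nWd φ v vd g * ρ - nWd φ v vd g - nWd φ v vd g * a1 * (nW φ v g + ρ ^ 2 - nW φ v g * ρ) +
        nWd φ v vd g * a2 * (ρ + ρ - nW φ v g) : ℝ) : ℂ) • 1 := by
  generalize hs : ns φ v g.1 g.2 = s
  generalize hsd : nsd φ vd g.1 g.2 = sd
  generalize hw : nW φ v g = w
  generalize hwd : nWd φ v vd g = wd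
  ext i j
  simp only [rD, rM, rMr, nR, nRd, nRr, oJ, hs, hsd, hw, hwd, Matrix.add_apply, Matrix.sub_apply,
    Matrix.smul_apply, Matrix.of_apply, smul_eq_mul, Pi.add_apply, Pi.sub_apply, Pi.smul_apply]
  fin_cases j <;>
    simp only [Fin.zero_eta, Fin.mk_one, Fin.reduceFinMk, Matrix.cons_val_zero,
      Matrix.cons_val_one, Matrix.cons_val, star_add, star_sub, star_mul', Complex.star_def,
      Complex.conj_ofReal] <;> push_cast <;> ring

theorem adJ_apply (M : Matrix (Fin 3) (Fin 3) ℂ) (i j : Fin 3) :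
    adJ M i j = ![1, 1, -1] i * star (M j i) * ![1, 1, -1] j := by
  simp only [adJ, Matrix.mul_apply, Fin.sum_univ_three, Matrix.conjTranspose_apply]
  fin_cases i <;> fin_cases j <;> simp [J1]

section

variable {α : Type} {D : ℕ} {lf : α → Vt D → ℂ} {A : Alg α} {t : ℕ → ℝ}

theorem TOK_one (hA : AOK D lf A) (hP : PT D t) : TOK D lf t 1 (oneM A) :=
  TOK.cst' hA hP (by unfold UU; norm_num)

variable {v vd : Fin 3 → ℂ} {Vm Vd : V3m α}

theorem TV_c (hA : AOK D lf A) (hP : PT D t) (hv : TW D lf t v Vm) :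
    TV D lf t (rfJ 1 v) (cMm A Vm) :=
  (((hv.o hA hP hv).neg hA hP).ad hA (TOK_one hA hP)).congr (rfJ_oJ v).symm

theorem TV_cd (hA : AOK D lf A) (hP : PT D t) (hv : TW D lf t v Vm) (hd : TW D lf t vd Vd) :
    TV D lf t (rfd 1 0 v vd) (cdM A Vm Vd) :=
  (((hd.o hA hP hv).add hA (hv.o hA hP hd)).neg hA hP).congr (rfd_oJ v vd).symm

/-- MODEL OF `c` AND `G / 2` -/
structure FOK (D : ℕ) (lf : α → Vt D → ℂ) (t : ℕ → ℝ) (v vd : Fin 3 → ℂ) (F : FX α) : Prop where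
  c : TV D lf t (rfJ 1 v) F.c
  h : TV D lf t ((1 / 2 : ℂ) • nG v vd) F.h

theorem FOK_fx (hA : AOK D lf A) (hP : PT D t) (hv : TW D lf t v Vm) (hd : TW D lf t vd Vd) :
    FOK D lf t v vd (fxM A Vm Vd) :=
  ⟨TV_c hA hP hv, ((TV_c hA hP hv).mul hA hP (TV_cd hA hP hv hd)).half hA hP⟩

variable {F : FX α} {S : Matrix (Fin 3) (Fin 3) ℂ} {U : V9 α}

theorem TV_l (hA : AOK D lf A) (hP : PT D t) (hF : FOK D lf t v vd F) (hS : TV D lf t S U) :
    TV D lf t (lR v vd S) (lM A F U) := (hS.mul hA hP hF.c).sub hA hF.h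

theorem TV_r (hA : AOK D lf A) (hP : PT D t) (hF : FOK D lf t v vd F) (hS : TV D lf t S U) :
    TV D lf t (rR v vd S) (rM' A F U) := (hF.c.mul hA hP hS).sub hA hF.h

/-- `adJ` -/
theorem TV_aj (hA : AOK D lf A) (hP : PT D t) (hS : TV D lf t S U) :
    TV D lf t (adJ S) (ajV A U) := by
  have e : ∀ i j, adJ S i j = ![1, 1, -1] i * star (S j i) * ![1, 1, -1] j := adJ_apply S
  exact ⟨tc (hS.a.conj hA) (by rw [e]; simp), tc (hS.d.conj hA) (by rw [e]; simp),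
    tc (TOK_neg hA hP (hS.g.conj hA)) (by rw [e]; simp),
    tc (hS.b.conj hA) (by rw [e]; simp), tc (hS.e.conj hA) (by rw [e]; simp),
    tc (TOK_neg hA hP (hS.h.conj hA)) (by rw [e]; simp),
    tc (TOK_neg hA hP (hS.c.conj hA)) (by rw [e]; simp),
    tc (TOK_neg hA hP (hS.f.conj hA)) (by rw [e]; simp), tc (hS.i.conj hA) (by rw [e]; simp)⟩

theorem TV_ga (hA : AOK D lf A) (hP : PT D t) {S0 X Y : Matrix (Fin 3) (Fin 3) ℂ}
    {U0 UX UY : V9 α} (h0 : TV D lf t S0 U0) (hX : TV D lf t X UX) (hY : TV D lf t Y UY) :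
    TV D lf t (S0 + X - adJ Y) (gaV A U0 UX UY) := (h0.add hA hX).sub hA (TV_aj hA hP hY)

variable {M Dm S' : Matrix (Fin 3) (Fin 3) ℂ} {Mm Dd L R : V9 α}

/-- `nX`, ANY BLOCK -/
theorem TV_x (hA : AOK D lf A) (hP : PT D t) (hM : TV D lf t M Mm) (hD : TV D lf t Dm Dd)
    (hL : TV D lf t (lR v vd S) L) (hR : TV D lf t (rR v vd S') R) :
    TV D lf t (nX v vd M Dm S S') (xM A Mm Dd L R) :=
  (hD.add hA ((hM.mul hA hP hL).sub hA (hR.mul hA hP hM))).congr (nX_LR v vd M Dm S S').symm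

/-- `nX`, `D = 0` -/
theorem TV_x0 (hA : AOK D lf A) (hP : PT D t) (hM : TV D lf t M Mm)
    (hL : TV D lf t (lR v vd S) L) (hR : TV D lf t (rR v vd S') R) :
    TV D lf t (nX v vd M 0 S S') (x0M A Mm L R) :=
  ((hM.mul hA hP hL).sub hA (hR.mul hA hP hM)).congr (by rw [nX_LR, zero_add])

theorem TV_rt (hA : AOK D lf A) (hP : PT D t) {e f : ℂ} {E F' : Mo α} (he : TOK D lf t e E)
    (hf : TOK D lf t f F') : TV D lf t (!![e, 0, 0; 0, f, 0; 0, 0, 1]) (rtM A E F') :=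
  ⟨tc he (by simp), tc (TOK_ze hA hP) (by simp), tc (TOK_ze hA hP) (by simp),
    tc (TOK_ze hA hP) (by simp), tc hf (by simp), tc (TOK_ze hA hP) (by simp),
    tc (TOK_ze hA hP) (by simp), tc (TOK_ze hA hP) (by simp), tc (TOK_one hA hP) (by simp)⟩

/-- `nX`, ROTATION -/
theorem TV_xt (hA : AOK D lf A) (hP : PT D t) {e f : ℂ} {E F' : Mo α} (he : TOK D lf t e E)
    (hf : TOK D lf t f F') (hL : TV D lf t (lR v vd S) L) (hR : TV D lf t (rR v vd S') R) :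
    TV D lf t (nX v vd (!![e, 0, 0; 0, f, 0; 0, 0, 1]) 0 S S') (xtM A E F' L R) := by
  have k : ∀ i j, (!![e, 0, 0; 0, f, 0; 0, 0, 1] * lR v vd S -
      rR v vd S' * !![e, 0, 0; 0, f, 0; 0, 0, 1]) i j =
      nX v vd (!![e, 0, 0; 0, f, 0; 0, 0, 1]) 0 S S' i j := fun i j => by
    rw [nX_LR, zero_add]
  constructor
  · refine tc (he.mul hA hP (hL.a.sub hA hR.a)) ((?_ : _ = _).trans (k 0 0))
    simp only [Matrix.sub_apply, Matrix.mul_apply, Fin.sum_univ_three]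
    simp
    ring
  · refine tc ((he.mul hA hP hL.b).sub hA (hR.b.mul hA hP hf)) ((?_ : _ = _).trans (k 0 1))
    simp only [Matrix.sub_apply, Matrix.mul_apply, Fin.sum_univ_three]
    simp
  · refine tc ((he.mul hA hP hL.c).sub hA hR.c) ((?_ : _ = _).trans (k 0 2))
    simp only [Matrix.sub_apply, Matrix.mul_apply, Fin.sum_univ_three]
    simp
  · refine tc ((hf.mul hA hP hL.d).sub hA (hR.d.mul hA hP he)) ((?_ : _ = _).trans (k 1 0))
    simp only [Matrix.sub_apply, Matrix.mul_apply, Fin.sum_univ_three]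
    simp
  · refine tc (hf.mul hA hP (hL.e.sub hA hR.e)) ((?_ : _ = _).trans (k 1 1))
    simp only [Matrix.sub_apply, Matrix.mul_apply, Fin.sum_univ_three]
    simp
    ring
  · refine tc ((hf.mul hA hP hL.f).sub hA hR.f) ((?_ : _ = _).trans (k 1 2))
    simp only [Matrix.sub_apply, Matrix.mul_apply, Fin.sum_univ_three]
    simp
  · refine tc (hL.g.sub hA (hR.g.mul hA hP he)) ((?_ : _ = _).trans (k 2 0))
    simp only [Matrix.sub_apply, Matrix.mul_apply, Fin.sum_univ_three]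
    simp
  · refine tc (hL.h.sub hA (hR.h.mul hA hP hf)) ((?_ : _ = _).trans (k 2 1))
    simp only [Matrix.sub_apply, Matrix.mul_apply, Fin.sum_univ_three]
    simp
  · refine tc (hL.i.sub hA hR.i) ((?_ : _ = _).trans (k 2 2))
    simp only [Matrix.sub_apply, Matrix.mul_apply, Fin.sum_univ_three]
    simp

/-! #### runs -/

/-- MODEL OF THE DATA OF A RUN -/
structure ROK (D : ℕ) (lf : α → Vt D → ℂ) (t : ℕ → ℝ) (s x : Fin 3 → ℂ) (τ σ : ℂ) (Q : RX α) :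
    Prop where
  hs : TW D lf t s Q.s
  hx : TW D lf t x Q.x
  ht : TOK D lf t τ Q.t
  hu : TOK D lf t σ Q.u

variable {s x : Fin 3 → ℂ} {τ σ : ℂ} {Q : RX α}

/-- `x^* J + s^* J L` as a vector -/
def qR (s x : Fin 3 → ℂ) (L : Matrix (Fin 3) (Fin 3) ℂ) : Fin 3 → ℂ :=
  ![star (x 0), star (x 1), -star (x 2)] +
    (L.transpose).mulVec ![star (s 0), star (s 1), -star (s 2)]

theorem oJ_mul (x y : Fin 3 → ℂ) (L : Matrix (Fin 3) (Fin 3) ℂ) : oJ x y * L =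
    Matrix.of fun i j => x i * (L.transpose).mulVec ![star (y 0), star (y 1), -star (y 2)] j := by
  ext i j
  rw [Matrix.mul_apply, Fin.sum_univ_three]
  simp only [oJ, Matrix.of_apply, Matrix.mulVec, dotProduct, Fin.sum_univ_three,
    Matrix.transpose_apply]
  ring

theorem mul_oJ (x y : Fin 3 → ℂ) (R : Matrix (Fin 3) (Fin 3) ℂ) : R * oJ x y =
    oJ (R.mulVec x) y := by
  ext i j
  rw [Matrix.mul_apply, Fin.sum_univ_three]
  simp only [oJ, Matrix.of_apply, Matrix.mulVec, dotProduct, Fin.sum_univ_three]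
  ring

theorem run_eq (L R : Matrix (Fin 3) (Fin 3) ℂ) :
    (oJ x s + oJ s x + σ • 1) + ((oJ s s - τ • 1) * L - R * (oJ s s - τ • 1)) =
    (Matrix.of fun i j => (x - R.mulVec s) i * ![star (s 0), star (s 1), -star (s 2)] j) +
      (Matrix.of fun i j => s i * qR s x L j) + τ • (R - L) + σ • 1 := by
  rw [sub_mul, mul_sub, mul_oJ, oJ_mul, smul_mul_assoc, mul_smul_comm, one_mul, mul_one]
  ext i j
  simp only [qR, oJ, Matrix.add_apply, Matrix.sub_apply, Matrix.smul_apply, Matrix.of_apply,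
    smul_eq_mul, Pi.add_apply, Pi.sub_apply]
  ring

theorem TW_p (hA : AOK D lf A) (hP : PT D t) (hQ : ROK D lf t s x τ σ Q)
    (hR : TV D lf t (rR v vd S') R) :
    TW D lf t (x - (rR v vd S').mulVec s) (pM A Q R) := hQ.hx.sub hA (hR.mv hA hP hQ.hs)

theorem TW_q (hA : AOK D lf A) (hP : PT D t) (hQ : ROK D lf t s x τ σ Q)
    (hL : TV D lf t (lR v vd S) L) :
    TW D lf t (qR s x (lR v vd S)) (qM A Q L) :=
  (hQ.hx.jw hA hP).add hA ((hL.tr).mv hA hP (hQ.hs.jw hA hP))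

/-- `nX` OF A RUN, `p` and `q` given -/
theorem TV_xp (hA : AOK D lf A) (hP : PT D t) (hQ : ROK D lf t s x τ σ Q)
    (hL : TV D lf t (lR v vd S) L) (hR : TV D lf t (rR v vd S') R) {p q : V3m α}
    (hp : TW D lf t (x - (rR v vd S').mulVec s) p) (hq : TW D lf t (qR s x (lR v vd S)) q) :
    TV D lf t (nX v vd (oJ s s - τ • 1) (oJ x s + oJ s x + σ • 1) S S') (xpM A Q p q L R) :=
  ((((hp.ou hA hP (hQ.hs.jw hA hP)).add hA (hQ.hs.ou hA hP hq)).add hA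
    ((hR.sub hA hL).smul hA hP hQ.ht)).ad hA hQ.hu).congr
      ((run_eq (lR v vd S) (rR v vd S')).symm.trans (nX_LR v vd _ _ S S').symm)

/-- `nX` OF A RUN -/
theorem TV_xr (hA : AOK D lf A) (hP : PT D t) (hQ : ROK D lf t s x τ σ Q)
    (hL : TV D lf t (lR v vd S) L) (hR : TV D lf t (rR v vd S') R) :
    TV D lf t (nX v vd (oJ s s - τ • 1) (oJ x s + oJ s x + σ • 1) S S') (xrM A Q L R) :=
  TV_xp hA hP hQ hL hR (TW_p hA hP hQ hR) (TW_q hA hP hQ hL)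

theorem TV_mr (hA : AOK D lf A) (hP : PT D t) (hQ : ROK D lf t s x τ σ Q) :
    TV D lf t (oJ s s - τ • 1) (mrM A Q) := (hQ.hs.o hA hP hQ.hs).sb hA hQ.ht

theorem TV_dr (hA : AOK D lf A) (hP : PT D t) (hQ : ROK D lf t s x τ σ Q) :
    TV D lf t (oJ x s + oJ s x + σ • 1) (drM A Q) :=
  ((hQ.hx.o hA hP hQ.hs).add hA (hQ.hs.o hA hP hQ.hx)).ad hA hQ.hu

/-- real data of a run -/
def sR (φ : ℝ) (v : Fin 3 → ℂ) (g : Sy) (ρ : ℝ) : Fin 3 → ℂ := ns φ v g.1 g.2 - (ρ : ℂ) • v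
def xR (φ : ℝ) (v vd : Fin 3 → ℂ) (g : Sy) (ρ a1 a2 : ℝ) : Fin 3 → ℂ :=
  (nsd φ vd g.1 g.2 - (ρ : ℂ) • vd) + ((nWd φ v vd g * a2 : ℝ) : ℂ) • v +
    ((1 / 2 * (nWd φ v vd g * a1) : ℝ) : ℂ) • sR φ v g ρ
def tR (φ : ℝ) (v : Fin 3 → ℂ) (g : Sy) (ρ : ℝ) : ℂ :=
  ((nW φ v g + ρ ^ 2 - nW φ v g * ρ : ℝ) : ℂ)
def uR (φ : ℝ) (v vd : Fin 3 → ℂ) (g : Sy) (ρ a1 a2 : ℝ) : ℂ :=
  ((nWd φ v vd g * ρ - nWd φ v vd g - nWd φ v vd g * a1 * (nW φ v g + ρ ^ 2 - nW φ v g * ρ) +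
        nWd φ v vd g * a2 * (ρ + ρ - nW φ v g) : ℝ) : ℂ)

/-- THE RUNS OF NF7 -/
theorem rM_run (φ : ℝ) (v : Fin 3 → ℂ) (g : Sy) (ρ : ℝ) :
    oJ (sR φ v g ρ) (sR φ v g ρ) - tR φ v g ρ • 1 = rM φ v g ρ := (rM_oJ φ v g ρ).symm
theorem rD_run (φ : ℝ) (v vd : Fin 3 → ℂ) (g : Sy) (ρ a1 a2 : ℝ) :
    oJ (xR φ v vd g ρ a1 a2) (sR φ v g ρ) + oJ (sR φ v g ρ) (xR φ v vd g ρ a1 a2) +
      uR φ v vd g ρ a1 a2 • 1 = rD φ v vd g ρ a1 a2 := (rD_oJ φ v vd g ρ a1 a2).symm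

/-- the data of the run from the models of its parameters -/
theorem ROK_rx (hA : AOK D lf A) (hP : PT D t) {φ : ℝ} {g : Sy} {ρ a1 a2 : ℝ}
    {Vs Vsd : V3m α} {W Wd Rm A1 A2 : Mo α}
    (hv : TW D lf t v Vm) (hd : TW D lf t vd Vd) (hs : TW D lf t (ns φ v g.1 g.2) Vs)
    (hsd : TW D lf t (nsd φ vd g.1 g.2) Vsd) (hw : TOK D lf t ((nW φ v g : ℝ) : ℂ) W)
    (hwd : TOK D lf t ((nWd φ v vd g : ℝ) : ℂ) Wd) (hr : TOK D lf t ((ρ : ℝ) : ℂ) Rm)
    (h1 : TOK D lf t ((a1 : ℝ) : ℂ) A1) (h2 : TOK D lf t ((a2 : ℝ) : ℂ) A2) :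
    ROK D lf t (sR φ v g ρ) (xR φ v vd g ρ a1 a2) (tR φ v g ρ) (uR φ v vd g ρ a1 a2)
      (rxM A Vm Vd Vs Vsd W Wd Rm A1 A2) := by
  have hS : TW D lf t (sR φ v g ρ) (subW A Vs (smW A Rm Vm)) := hs.sub hA (hv.smul hA hP hr)
  have g1 : TOK D lf t ((nWd φ v vd g * a1 : ℝ) : ℂ) (mulM A Wd A1) :=
    tc (hwd.mul hA hP h1) (by push_cast; ring)
  have g2 : TOK D lf t ((nWd φ v vd g * a2 : ℝ) : ℂ) (mulM A Wd A2) :=
    tc (hwd.mul hA hP h2) (by push_cast; ring)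
  have g3 : TOK D lf t ((1 / 2 * (nWd φ v vd g * a1) : ℝ) : ℂ) (hfM A (mulM A Wd A1)) :=
    tc (TOK_hf hA hP g1) (by push_cast; ring)
  have hT : TOK D lf t (tR φ v g ρ) (subM A (addM A W (mulM A Rm Rm)) (mulM A W Rm)) :=
    tc ((hw.add hA (hr.mul hA hP hr)).sub hA (hw.mul hA hP hr)) (by unfold tR; push_cast; ring)
  refine ⟨hS, ?_, hT, ?_⟩
  · exact ((hsd.sub hA (hd.smul hA hP hr)).add hA (hv.smul hA hP g2)).add hA
      (hS.smul hA hP g3)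
  · refine tc ((((hwd.mul hA hP hr).sub hA hwd).sub hA (g1.mul hA hP hT)).add hA
      (g2.mul hA hP ((hr.add hA hr).sub hA hw))) ?_
    unfold tR uR
    push_cast
    ring

/-- THE ITEM OF A RUN: models of `nX .. (rM ..) (rD ..) S S'` -/
theorem TV_item (hA : AOK D lf A) (hP : PT D t) {φ : ℝ} {g : Sy} {ρ a1 a2 : ℝ}
    (hQ : ROK D lf t (sR φ v g ρ) (xR φ v vd g ρ a1 a2) (tR φ v g ρ) (uR φ v vd g ρ a1 a2) Q)
    (hL : TV D lf t (lR v vd S) L) (hR : TV D lf t (rR v vd S') R) :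
    TV D lf t (nX v vd (rM φ v g ρ) (rD φ v vd g ρ a1 a2) S S') (xrM A Q L R) ∧
      TV D lf t (rM φ v g ρ) (mrM A Q) := by
  have h := TV_xr hA hP hQ hL hR
  rw [rM_run, rD_run] at h
  exact ⟨h, (TV_mr hA hP hQ).congr (rM_run φ v g ρ)⟩

/-- the same with `p` and `q` given -/
theorem TV_item' (hA : AOK D lf A) (hP : PT D t) {φ : ℝ} {g : Sy} {ρ a1 a2 : ℝ} {p q : V3m α}
    (hQ : ROK D lf t (sR φ v g ρ) (xR φ v vd g ρ a1 a2) (tR φ v g ρ) (uR φ v vd g ρ a1 a2) Q)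
    (hL : TV D lf t (lR v vd S) L) (hR : TV D lf t (rR v vd S') R)
    (hp : TW D lf t (xR φ v vd g ρ a1 a2 - (rR v vd S').mulVec (sR φ v g ρ)) p)
    (hq : TW D lf t (qR (sR φ v g ρ) (xR φ v vd g ρ a1 a2) (lR v vd S)) q) :
    TV D lf t (nX v vd (rM φ v g ρ) (rD φ v vd g ρ a1 a2) S S') (xpM A Q p q L R) := by
  have h := TV_xp hA hP hQ hL hR hp hq
  rw [rM_run, rD_run] at h
  exact h

/-! #### rotations -/

/-- the rotation `(a, k)` -/
theorem sDm_even (φ : ℝ) (a : Bool) (k : ℕ) (hk : k % 2 = 0) : sDm φ a k =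
    !![(if a then star (Pool.Agent.Helper6.MONO.W2.ep φ) else
        Pool.Agent.Helper6.MONO.W2.ep φ) ^ k, 0, 0;
      0, (if a then Pool.Agent.Helper6.MONO.W2.ep φ else
        star (Pool.Agent.Helper6.MONO.W2.ep φ)) ^ k, 0; 0, 0, 1] := by
  simp [sDm, hk]

/-- THE ITEM OF A ROTATION -/
theorem TV_rot (hA : AOK D lf A) (hP : PT D t) {φ : ℝ} {g : Sy} (hg : g.2 % 2 = 0)
    {E F' : Mo α}
    (he : TOK D lf t ((if g.1 then star (Pool.Agent.Helper6.MONO.W2.ep φ) else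
        Pool.Agent.Helper6.MONO.W2.ep φ) ^ g.2) E)
    (hf : TOK D lf t ((if g.1 then Pool.Agent.Helper6.MONO.W2.ep φ else
        star (Pool.Agent.Helper6.MONO.W2.ep φ)) ^ g.2) F')
    (hL : TV D lf t (lR v vd S) L) (hR : TV D lf t (rR v vd S') R) :
    TV D lf t (nX v vd (sDm φ g.1 g.2) 0 S S') (xtM A E F' L R) ∧
      TV D lf t (sDm φ g.1 g.2) (rtM A E F') := by
  rw [sDm_even φ g.1 g.2 hg]
  exact ⟨TV_xt hA hP he hf hL hR, TV_rt hA hP he hf⟩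

end

end Pool.Agent.Helper26.XM
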